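import Pool.Agent.Lib.MP_a7239a_co.RG.BOHR
import Pool.Agent.Lib.MP_a7239a_co.RG.SPC

/-!
# FILL: disjoint pairs whose subset sums are a subgroup, or a character with small values on the rows
-/

set_option autoImplicit false

open Finset

namespace Pool.Agent.Lib.MPa7239a.R3

open Pool.Agent.Lib.MPa7239a.GC (Hit)
open Pool.Agent.Lib.MPa7239a.RG

namespace FillM

section

variable {G : Type*} [AddCommGroup G] [Fintype G] [DecidableEq G] {n : ℕ} [NeZero n]

/-- autocorrelation -/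
theorem corr (hG : ∀ x : G, n • x = 0) (Y : Finset G) (d : G) :
    ∑ ξ : G →+ ZMod n, ‖cs Y ξ‖ ^ 2 * (ZMod.stdAddChar (ph ξ d) : ℂ).re =
      (Fintype.card (G →+ ZMod n) : ℝ) * #(Y.filter (fun x => x + d ∈ Y)) := by
  have key : ∀ ξ : G →+ ZMod n, ((‖cs Y ξ‖ ^ 2 : ℝ) : ℂ) * (ZMod.stdAddChar (ph ξ d) : ℂ) =
      ∑ z ∈ Y, ∑ w ∈ Y, (ZMod.stdAddChar (ph ξ (z + d - w)) : ℂ) := by
    intro ξ
    rw [Complex.ofReal_pow, ← Complex.mul_conj', cs, map_sum, sum_mul_sum, sum_mul]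
    refine sum_congr rfl fun z _ => ?_
    rw [sum_mul]
    refine sum_congr rfl fun w _ => ?_
    rw [← AddChar.map_neg_eq_conj, sub_eq_add_neg, BohrM.char_add, BohrM.char_add, ph_neg]
    ring
  have h : ∑ ξ : G →+ ZMod n, ((‖cs Y ξ‖ ^ 2 : ℝ) : ℂ) * (ZMod.stdAddChar (ph ξ d) : ℂ) =
      (Fintype.card (G →+ ZMod n) : ℂ) * #(Y.filter (fun x => x + d ∈ Y)) := by
    rw [sum_congr rfl fun ξ _ => key ξ, sum_comm]
    have h4 : ∀ z ∈ Y, ∑ ξ : G →+ ZMod n, ∑ w ∈ Y, (ZMod.stdAddChar (ph ξ (z + d - w)) : ℂ) =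
        if z + d ∈ Y then (Fintype.card (G →+ ZMod n) : ℂ) else 0 := by
      intro z _
      rw [sum_comm]
      have h5 : ∀ w ∈ Y, ∑ ξ : G →+ ZMod n, (ZMod.stdAddChar (ph ξ (z + d - w)) : ℂ) =
          if w = z + d then (Fintype.card (G →+ ZMod n) : ℂ) else 0 := by
        intro w _
        rw [orth hG]
        by_cases hw : w = z + d
        · rw [if_pos hw, if_pos (by rw [hw, sub_self])]
        · rw [if_neg hw, if_neg (fun h => hw (sub_eq_zero.mp h).symm)]
      rw [sum_congr rfl h5, sum_ite_eq' Y (z + d)]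
    rw [sum_congr rfl h4, ← sum_filter, sum_const, nsmul_eq_mul, mul_comm]
  have h2 := congrArg Complex.re h
  rw [Complex.re_sum] at h2
  have h3 : ((Fintype.card (G →+ ZMod n) : ℂ) * #(Y.filter (fun x => x + d ∈ Y))).re =
      (Fintype.card (G →+ ZMod n) : ℝ) * #(Y.filter (fun x => x + d ∈ Y)) := by
    rw [← Complex.ofReal_natCast, ← Complex.ofReal_natCast, ← Complex.ofReal_mul,
      Complex.ofReal_re]
  rw [← h3, ← h2]
  refine sum_congr rfl fun ξ _ => ?_
  rw [Complex.re_ofReal_mul]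

open Classical in
/-- the characters that are trivial on `H` -/
noncomputable def ann (n : ℕ) [NeZero n] (H : AddSubgroup G) : Finset (G →+ ZMod n) :=
  univ.filter (fun ξ => ∀ h ∈ H, ξ h = 0)

open Classical in
/-- the characters that are not trivial on `H` -/
noncomputable def annc (n : ℕ) [NeZero n] (H : AddSubgroup G) : Finset (G →+ ZMod n) :=
  univ.filter (fun ξ => ¬ ∀ h ∈ H, ξ h = 0)

omit [DecidableEq G] in
theorem mem_ann {H : AddSubgroup G} {ξ : G →+ ZMod n} : ξ ∈ ann n H ↔ ∀ h ∈ H, ξ h = 0 := by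
  classical
  simp [ann]

omit [DecidableEq G] in
theorem mem_annc {H : AddSubgroup G} {ξ : G →+ ZMod n} : ξ ∈ annc n H ↔ ∃ h ∈ H, ξ h ≠ 0 := by
  classical
  simp [annc]

/-- the characters that are trivial on `H` are few -/
theorem ann_le (hG : ∀ x : G, n • x = 0) (H : AddSubgroup G) :
    #(ann n H) * Nat.card H ≤ Fintype.card (G →+ ZMod n) := by
  classical
  set U : Finset G := univ.filter (fun x => x ∈ H) with hU
  have hUc : #U = Nat.card H := by
    rw [hU, ← Fintype.card_subtype, ← Nat.card_eq_fintype_card]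
  have hpos : 0 < Nat.card H := Nat.card_pos
  have h1 := BohrM.parseval_cs hG U
  have h2 : ∑ ξ ∈ ann n H, ‖cs U ξ‖ ^ 2 ≤ ∑ ξ : G →+ ZMod n, ‖cs U ξ‖ ^ 2 :=
    sum_le_sum_of_subset_of_nonneg (subset_univ _) fun _ _ _ => sq_nonneg _
  have h3 : ∀ ξ ∈ ann n H, ‖cs U ξ‖ ^ 2 = (Nat.card H : ℝ) ^ 2 := by
    intro ξ hξ
    rw [mem_ann] at hξ
    have h4 : cs U ξ = (Nat.card H : ℂ) := by
      rw [cs, ← hUc]
      rw [sum_congr rfl fun x hx => by
        rw [ph, hξ x (mem_filter.1 hx).2, AddChar.map_zero_eq_one]]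
      rw [sum_const, nsmul_eq_mul, mul_one]
    rw [h4, Complex.norm_natCast]
  rw [sum_congr rfl h3, sum_const, nsmul_eq_mul, h1, hUc] at h2
  have h5 : ((#(ann n H) * Nat.card H * Nat.card H : ℕ) : ℝ) ≤
      ((Fintype.card (G →+ ZMod n) * Nat.card H : ℕ) : ℝ) := by
    push_cast
    have e : (#(ann n H) : ℝ) * Nat.card H * Nat.card H =
      (#(ann n H) : ℝ) * (Nat.card H : ℝ) ^ 2 := by ring
    rw [e]
    exact h2
  have h6 := Nat.cast_le.1 h5
  exact Nat.le_of_mul_le_mul_right h6 hpos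

/-- half of the mass is outside the annihilator -/
theorem mass (hG : ∀ x : G, n • x = 0) (H : AddSubgroup G) {Y : Finset G}
    (hY : ∀ y ∈ Y, y ∈ H) (h2 : 2 * #Y ≤ Nat.card H) :
    (Fintype.card (G →+ ZMod n) : ℝ) * #Y ≤
      2 * ∑ ξ ∈ annc n H, ‖cs Y ξ‖ ^ 2 := by
  classical
  have h1 := BohrM.parseval_cs hG Y
  rw [← sum_filter_add_sum_filter_not univ (fun ξ : G →+ ZMod n => ∀ h ∈ H, ξ h = 0)] at h1
  have e1 : univ.filter (fun ξ : G →+ ZMod n => ∀ h ∈ H, ξ h = 0) = ann n H := by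
    ext ξ
    rw [mem_ann, mem_filter]
    exact ⟨fun h => h.2, fun h => ⟨mem_univ _, h⟩⟩
  have e2 : univ.filter (fun ξ : G →+ ZMod n => ¬ ∀ h ∈ H, ξ h = 0) = annc n H := by
    ext ξ
    rw [mem_annc, mem_filter]
    push Not
    exact ⟨fun h => h.2, fun h => ⟨mem_univ _, h⟩⟩
  rw [e1, e2] at h1
  have h3 : ∀ ξ ∈ ann n H, ‖cs Y ξ‖ ^ 2 = (#Y : ℝ) ^ 2 := by
    intro ξ hξ
    rw [mem_ann] at hξ
    have h4 : cs Y ξ = (#Y : ℂ) := by
      rw [cs]
      rw [sum_congr rfl fun x hx => by rw [ph, hξ x (hY x hx), AddChar.map_zero_eq_one]]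
      rw [sum_const, nsmul_eq_mul, mul_one]
    rw [h4, Complex.norm_natCast]
  rw [sum_congr rfl h3, sum_const, nsmul_eq_mul] at h1
  have h4 := ann_le hG H
  have h5 : 2 * ((#(ann n H) : ℝ) * (#Y : ℝ) ^ 2) ≤
      (Fintype.card (G →+ ZMod n) : ℝ) * #Y := by
    have h6 : ((#(ann n H) * Nat.card H : ℕ) : ℝ) ≤
      (Fintype.card (G →+ ZMod n) : ℝ) := by exact_mod_cast h4
    push_cast at h6
    have h7 : (2 : ℝ) * #Y ≤ Nat.card H := by exact_mod_cast h2
    have h8 : (0 : ℝ) ≤ #Y := Nat.cast_nonneg _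
    have h9 : (0 : ℝ) ≤ (#(ann n H) : ℝ) := Nat.cast_nonneg _
    calc 2 * ((#(ann n H) : ℝ) * (#Y : ℝ) ^ 2)
        = (#(ann n H) : ℝ) * (2 * #Y) * #Y := by ring
      _ ≤ (#(ann n H) : ℝ) * Nat.card H * #Y :=
        mul_le_mul_of_nonneg_right (mul_le_mul_of_nonneg_left h7 h9) h8
      _ ≤ (Fintype.card (G →+ ZMod n) : ℝ) * #Y := mul_le_mul_of_nonneg_right h6 h8
  linarith

omit [Fintype G] [NeZero n] in
/-- multiples of a popular difference -/
theorem multiples (Y : Finset G) (d : G) (j : ℕ) :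
    #(Y.filter (fun x => x + j • d ∉ Y)) ≤ j * #(Y.filter (fun x => x + d ∉ Y)) := by
  induction j with
  | zero =>
    rw [zero_mul, Nat.le_zero, card_eq_zero, filter_eq_empty_iff]
    intro x hx h
    rw [zero_smul, add_zero] at h
    exact h hx
  | succ j ih =>
    have h1 : Y.filter (fun x => x + (j + 1) • d ∉ Y) ⊆
        Y.filter (fun x => x + j • d ∉ Y) ∪
          Y.filter (fun x => x + j • d ∈ Y ∧ x + j • d + d ∉ Y) := by
      intro x hx
      rw [mem_filter] at hx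
      rw [mem_union, mem_filter, mem_filter]
      by_cases h : x + j • d ∈ Y
      · right
        refine ⟨hx.1, h, ?_⟩
        rw [add_assoc, ← succ_nsmul]
        exact hx.2
      · exact Or.inl ⟨hx.1, h⟩
    have h2 : #(Y.filter (fun x => x + j • d ∈ Y ∧ x + j • d + d ∉ Y)) ≤
        #(Y.filter (fun x => x + d ∉ Y)) := by
      refine card_le_card_of_injOn (fun x => x + j • d) ?_ (fun _ _ _ _ h => add_right_cancel h)
      intro x hx
      have h3 := (mem_filter.1 (mem_coe.1 hx)).2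
      exact mem_coe.2 (mem_filter.2 h3)
    have h3 := card_le_card h1
    have h4 := card_union_le (Y.filter (fun x => x + j • d ∉ Y))
      (Y.filter (fun x => x + j • d ∈ Y ∧ x + j • d + d ∉ Y))
    rw [add_mul, one_mul]
    omega

omit [Fintype G] [DecidableEq G] in
/-- the geometric sum -/
theorem geom {ξ : G →+ ZMod n} {d : G} {J W : ℕ} (hJW : n ≤ J * W) (hW : 1 ≤ W)
    (h : (W : ℤ) ≤ |(ph ξ d).valMinAbs|) :
    2 * ∑ j ∈ range J, (ZMod.stdAddChar (ph ξ (j • d)) : ℂ).re ≤ J := by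
  have hn : (0 : ℝ) < n := by
    have := Nat.pos_of_ne_zero (NeZero.ne n)
    exact_mod_cast this
  set a : ℤ := (ph ξ d).valMinAbs with ha
  have ha2 : 2 * |a| ≤ n := by
    have h := ZMod.natAbs_valMinAbs_le (ph ξ d)
    rw [← ha] at h
    have h2 : (a.natAbs : ℤ) = |a| := Int.natCast_natAbs a
    omega
  have h1 := RS.SPCM.le_norm ha2
  rw [ha, ZMod.coe_valMinAbs, ← ha] at h1
  set z : ℂ := (ZMod.stdAddChar (ph ξ d) : ℂ) with hz
  have hz1 : ‖z‖ = 1 := BohrM.norm_char _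
  have h2 : ∀ j ∈ range J, (ZMod.stdAddChar (ph ξ (j • d)) : ℂ).re = (z ^ j).re := by
    intro j _
    rw [ph_nsmul, hz, ← nsmul_eq_mul, AddChar.map_nsmul_eq_pow]
  rw [sum_congr rfl h2, ← Complex.re_sum]
  have h3 : ‖∑ j ∈ range J, z ^ j‖ * ‖z - 1‖ ≤ 2 := by
    rw [← norm_mul, geom_sum_mul]
    refine (norm_sub_le _ _).trans ?_
    rw [norm_pow, hz1, one_pow, norm_one]
    norm_num
  have h4 := Complex.re_le_norm (∑ j ∈ range J, z ^ j)
  have h5 : (W : ℝ) ≤ |(a : ℝ)| := by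
    rw [← Int.cast_abs]
    exact_mod_cast h
  have h6 : (n : ℝ) ≤ J * W := by exact_mod_cast hJW
  have h7 : (1 : ℝ) ≤ W := by exact_mod_cast hW
  -- `S * 4 W ≤ S * ‖z - 1‖ n ≤ 2 n ≤ 2 J W`
  have h8 : ‖∑ j ∈ range J, z ^ j‖ * (4 * W) ≤ 2 * (J * W) := by
    calc ‖∑ j ∈ range J, z ^ j‖ * (4 * W) ≤ ‖∑ j ∈ range J, z ^ j‖ * (‖z - 1‖ * n) :=
          mul_le_mul_of_nonneg_left (by linarith) (norm_nonneg _)
      _ = ‖∑ j ∈ range J, z ^ j‖ * ‖z - 1‖ * n := by ring
      _ ≤ 2 * n := mul_le_mul_of_nonneg_right h3 hn.le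
      _ ≤ 2 * (J * W) := by linarith
  have h9 : ‖∑ j ∈ range J, z ^ j‖ * 2 ≤ J := by
    have h10 : ‖∑ j ∈ range J, z ^ j‖ * 2 * (2 * W) ≤ J * (2 * W) := by linarith
    exact le_of_mul_le_mul_right h10 (by linarith)
  linarith

/-- one round -/
theorem round (hG : ∀ x : G, n • x = 0) (H : AddSubgroup G) {J W M₀ : ℕ} {κ : ℝ} (hκ : 0 < κ)
    (hJW : n ≤ J * W) (hM₀ : (Nat.card H : ℝ) < (1 + κ / (4 * J)) ^ M₀) (A : Finset G) :
    (∃ m ≤ M₀, ∃ B ⊆ A, #B = 2 * m ∧ ∃ (b₀ : G) (Y : Finset G), (∀ y ∈ Y, y ∈ H) ∧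
      (∀ y ∈ Y, Hit B m (b₀ + y)) ∧ Nat.card H < 2 * #Y) ∨
    ∃ ξ : G →+ ZMod n, (∃ h ∈ H, ξ h ≠ 0) ∧ ∃ c : G → ZMod n,
      (∀ x y, x - y ∈ H → c x = c y) ∧
      (#(A.filter (fun a => (W : ℤ) ≤ |(ξ a - c a).valMinAbs|)) : ℝ) ≤ κ * #A + 2 * M₀ := by
  classical
  have hn0 : 0 < n := Nat.pos_of_ne_zero (NeZero.ne n)
  have hJ : 1 ≤ J := by
    rcases Nat.eq_zero_or_pos J with h | h
    · rw [h, zero_mul] at hJW
      omega
    · exact h
  have hW : 1 ≤ W := by
    rcases Nat.eq_zero_or_pos W with h | h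
    · rw [h, mul_zero] at hJW
      omega
    · exact h
  have hJ0 : (0 : ℝ) < J := by exact_mod_cast hJ
  set th : ℝ := κ / (4 * J) with hth
  have hth0 : 0 < th := by positivity
  -- the states
  let S : ℕ → Prop := fun m => ∃ B ⊆ A, #B = 2 * m ∧ ∃ (b₀ : G) (Y : Finset G),
    (∀ y ∈ Y, y ∈ H) ∧ (∀ y ∈ Y, Hit B m (b₀ + y)) ∧ (1 + th) ^ m ≤ (#Y : ℝ)
  have hS0 : S 0 := by
    refine ⟨∅, empty_subset _, by simp, 0, {0}, ?_, ?_, ?_⟩
    · intro y hy
      rw [mem_singleton.1 hy]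
      exact H.zero_mem
    · intro y hy
      rw [mem_singleton.1 hy]
      exact ⟨∅, empty_subset _, card_empty, by simp⟩
    · simp
  have hYle : ∀ Y : Finset G, (∀ y ∈ Y, y ∈ H) → #Y ≤ Nat.card H := by
    intro Y hY
    have h1 : Y ⊆ univ.filter (fun x => x ∈ H) := fun y hy => mem_filter.2 ⟨mem_univ _, hY y hy⟩
    have h2 := card_le_card h1
    rwa [← Fintype.card_subtype, ← Nat.card_eq_fintype_card] at h2
  have hSM : ¬ S M₀ := by
    rintro ⟨B, -, -, b₀, Y, hY, -, h⟩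
    have h1 : (#Y : ℝ) ≤ Nat.card H := by exact_mod_cast hYle Y hY
    linarith
  obtain ⟨m, hm, hSm, hSm1⟩ : ∃ m, m < M₀ ∧ S m ∧ ¬ S (m + 1) := by
    by_contra hcon
    push Not at hcon
    have h1 : ∀ m, m ≤ M₀ → S m := by
      intro m
      induction m with
      | zero => exact fun _ => hS0
      | succ m ih => exact fun h => hcon m (by omega) (ih (by omega))
    exact hSM (h1 M₀ le_rfl)
  obtain ⟨B, hBA, hBc, b₀, Y, hYH, hYhit, hYc⟩ := hSm
  by_cases hbig : Nat.card H < 2 * #Y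
  · exact Or.inl ⟨m, hm.le, B, hBA, hBc, b₀, Y, hYH, hYhit, hbig⟩
  push Not at hbig
  right
  set R : Finset G := A \ B with hR
  -- stuck
  have hstuck : ∀ a ∈ R, ∀ a' ∈ R, a - a' ∈ H →
      (#(Y.filter (fun y => y + (a - a') ∉ Y)) : ℝ) ≤ th * #Y := by
    intro a ha a' ha' hd
    by_contra hcon
    push Not at hcon
    have hYp : 0 ≤ th * (#Y : ℝ) := by positivity
    have hne : a ≠ a' := by
      rintro rfl
      have h1 : Y.filter (fun y => y + (a - a) ∉ Y) = ∅ := by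
        rw [filter_eq_empty_iff]
        intro y hy h
        rw [sub_self, add_zero] at h
        exact h hy
      rw [h1, card_empty, Nat.cast_zero] at hcon
      linarith
    rw [hR, mem_sdiff] at ha ha'
    apply hSm1
    refine ⟨insert a (insert a' B), ?_, ?_, b₀ + a', Y ∪ (Y.filter (fun y => y + (a - a') ∉ Y)).image
      (fun y => y + (a - a')), ?_, ?_, ?_⟩
    · intro x hx
      rw [mem_insert, mem_insert] at hx
      rcases hx with h | h | h
      · rw [h]; exact ha.1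
      · rw [h]; exact ha'.1
      · exact hBA h
    · rw [card_insert_of_notMem, card_insert_of_notMem ha'.2, hBc]
      · ring
      · rw [mem_insert, not_or]
        exact ⟨hne, ha.2⟩
    · intro y hy
      rw [mem_union, mem_image] at hy
      rcases hy with h | ⟨x, hx, rfl⟩
      · exact hYH y h
      · exact H.add_mem (hYH x (mem_filter.1 hx).1) hd
    · intro y hy
      rw [mem_union, mem_image] at hy
      rcases hy with h | ⟨x, hx, rfl⟩
      · obtain ⟨T, hT, hTc, hTs⟩ := hYhit y h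
        have h1 : a' ∉ T := fun h => ha'.2 (hT h)
        refine ⟨insert a' T, ?_, ?_, ?_⟩
        · intro x hx
          rw [mem_insert] at hx
          rw [mem_insert, mem_insert]
          rcases hx with h | h
          · exact Or.inr (Or.inl h)
          · exact Or.inr (Or.inr (hT h))
        · rw [card_insert_of_notMem h1, hTc]
        · rw [sum_insert h1, hTs]
          abel
      · obtain ⟨T, hT, hTc, hTs⟩ := hYhit x (mem_filter.1 hx).1
        have h1 : a ∉ T := fun h => ha.2 (hT h)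
        refine ⟨insert a T, ?_, ?_, ?_⟩
        · intro x hx
          rw [mem_insert] at hx
          rw [mem_insert, mem_insert]
          rcases hx with h | h
          · exact Or.inl h
          · exact Or.inr (Or.inr (hT h))
        · rw [card_insert_of_notMem h1, hTc]
        · rw [sum_insert h1, hTs]
          abel
    · have h1 : Disjoint Y ((Y.filter (fun y => y + (a - a') ∉ Y)).image
          (fun y => y + (a - a'))) := by
        rw [disjoint_left]
        intro x hx hx'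
        obtain ⟨y, hy, rfl⟩ := mem_image.1 hx'
        exact (mem_filter.1 hy).2 hx
      rw [card_union_of_disjoint h1, card_image_of_injective _ (add_left_injective _)]
      push_cast
      rw [pow_succ]
      have h2 : (1 + th) ^ m * (1 + th) ≤ #Y * (1 + th) :=
        mul_le_mul_of_nonneg_right hYc (by linarith)
      linarith
  -- representatives
  let q : G ⧸ H → G := fun z => if h : ∃ r ∈ R, (r : G ⧸ H) = z then h.choose else 0
  have hq : ∀ a ∈ R, q (a : G ⧸ H) ∈ R ∧ a - q (a : G ⧸ H) ∈ H := by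
    intro a ha
    have h : ∃ r ∈ R, (r : G ⧸ H) = (a : G ⧸ H) := ⟨a, ha, rfl⟩
    have h1 : q (a : G ⧸ H) = h.choose := dif_pos h
    rw [h1]
    refine ⟨h.choose_spec.1, ?_⟩
    have h2 := h.choose_spec.2
    rw [QuotientAddGroup.eq] at h2
    rw [sub_eq_add_neg, add_comm]
    exact h2
  set P : ℝ := (Fintype.card (G →+ ZMod n) : ℝ) with hP
  have hP0 : 0 < P := by
    rw [hP]
    exact_mod_cast Fintype.card_pos
  have hY1 : (0 : ℝ) < #Y := lt_of_lt_of_le (by positivity) hYc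
  -- the estimate for one `a`
  have hone : ∀ a ∈ R, ∑ ξ : G →+ ZMod n,
      (if (W : ℤ) ≤ |(ph ξ (a - q (a : G ⧸ H))).valMinAbs| then ‖cs Y ξ‖ ^ 2 else 0) ≤
        κ / 2 * (P * #Y) := by
    intro a ha
    set d : G := a - q (a : G ⧸ H) with hd
    have h1 : ∀ ξ : G →+ ZMod n,
        (if (W : ℤ) ≤ |(ph ξ d).valMinAbs| then ‖cs Y ξ‖ ^ 2 else 0) * (J / 2 : ℝ) ≤
          ∑ j ∈ range J, ‖cs Y ξ‖ ^ 2 * (1 - (ZMod.stdAddChar (ph ξ (j • d)) : ℂ).re) := by
      intro ξ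
      rw [← mul_sum, sum_sub_distrib, sum_const, card_range, nsmul_eq_mul, mul_one]
      split_ifs with h
      · refine mul_le_mul_of_nonneg_left ?_ (sq_nonneg _)
        have h2 := geom (ξ := ξ) (d := d) hJW hW h
        linarith
      · rw [zero_mul]
        refine mul_nonneg (sq_nonneg _) ?_
        have h2 : ∑ j ∈ range J, (ZMod.stdAddChar (ph ξ (j • d)) : ℂ).re ≤
            ∑ _j ∈ range J, (1 : ℝ) := by
          refine sum_le_sum fun j _ => ?_
          exact (Complex.re_le_norm _).trans (BohrM.norm_char _).le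
        rw [sum_const, card_range, nsmul_eq_mul, mul_one] at h2
        linarith
    have h2 := sum_le_sum fun (ξ : G →+ ZMod n) (_ : ξ ∈ univ) => h1 ξ
    rw [← sum_mul, sum_comm] at h2
    have h3 : ∀ j ∈ range J, ∑ ξ : G →+ ZMod n,
        ‖cs Y ξ‖ ^ 2 * (1 - (ZMod.stdAddChar (ph ξ (j • d)) : ℂ).re) ≤ P * (J * (th * #Y)) := by
      intro j hj
      rw [mem_range] at hj
      have h4 : ∑ ξ : G →+ ZMod n, ‖cs Y ξ‖ ^ 2 * (1 - (ZMod.stdAddChar (ph ξ (j • d)) : ℂ).re) =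
          P * #(Y.filter (fun y => y + j • d ∉ Y)) := by
        have h5 : ∀ ξ : G →+ ZMod n,
            ‖cs Y ξ‖ ^ 2 * (1 - (ZMod.stdAddChar (ph ξ (j • d)) : ℂ).re) =
            ‖cs Y ξ‖ ^ 2 - ‖cs Y ξ‖ ^ 2 * (ZMod.stdAddChar (ph ξ (j • d)) : ℂ).re := by
          intro ξ
          ring
        rw [sum_congr rfl fun ξ _ => h5 ξ, sum_sub_distrib, BohrM.parseval_cs hG, corr hG, ← hP,
          ← mul_sub]
        congr 1
        have h6 := card_filter_add_card_filter_not (s := Y) (fun y => y + j • d ∈ Y)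
        have h7 : (#(Y.filter (fun y => y + j • d ∈ Y)) : ℝ) +
            #(Y.filter (fun y => y + j • d ∉ Y)) = #Y := by exact_mod_cast h6
        linarith
      rw [h4]
      refine mul_le_mul_of_nonneg_left ?_ hP0.le
      have h5 : (#(Y.filter (fun y => y + j • d ∉ Y)) : ℝ) ≤
          j * #(Y.filter (fun y => y + d ∉ Y)) := by exact_mod_cast multiples Y d j
      have h6 := hstuck a ha _ (hq a ha).1 (hq a ha).2
      rw [← hd] at h6
      have h7 : (j : ℝ) ≤ J := by exact_mod_cast hj.le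
      calc (#(Y.filter (fun y => y + j • d ∉ Y)) : ℝ) ≤ j * #(Y.filter (fun y => y + d ∉ Y)) := h5
        _ ≤ J * #(Y.filter (fun y => y + d ∉ Y)) :=
          mul_le_mul_of_nonneg_right h7 (Nat.cast_nonneg _)
        _ ≤ J * (th * #Y) := mul_le_mul_of_nonneg_left h6 hJ0.le
    have h4 := sum_le_sum h3
    rw [sum_const, card_range, nsmul_eq_mul] at h4
    have h5 := h2.trans h4
    have h6 : (J : ℝ) * (P * (J * (th * #Y))) = κ / 2 * (P * #Y) * (J / 2) := by
      rw [hth]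
      field_simp
      ring
    rw [h6] at h5
    exact le_of_mul_le_mul_right h5 (by positivity)
  -- the average
  set N : (G →+ ZMod n) → Finset G := fun ξ =>
    R.filter (fun a => (W : ℤ) ≤ |(ph ξ (a - q (a : G ⧸ H))).valMinAbs|) with hN
  have hsum : ∑ ξ : G →+ ZMod n, ‖cs Y ξ‖ ^ 2 * (#(N ξ) : ℝ) ≤ #R * (κ / 2 * (P * #Y)) := by
    have h1 : ∀ ξ : G →+ ZMod n, ‖cs Y ξ‖ ^ 2 * (#(N ξ) : ℝ) = ∑ a ∈ R,
        (if (W : ℤ) ≤ |(ph ξ (a - q (a : G ⧸ H))).valMinAbs| then ‖cs Y ξ‖ ^ 2 else 0) := by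
      intro ξ
      rw [← sum_filter, sum_const, nsmul_eq_mul, mul_comm]
    rw [sum_congr rfl fun ξ _ => h1 ξ, sum_comm, ← nsmul_eq_mul, ← sum_const]
    exact sum_le_sum hone
  obtain ⟨ξ, hξ, hξN⟩ : ∃ ξ : G →+ ZMod n, (¬ ∀ h ∈ H, ξ h = 0) ∧ (#(N ξ) : ℝ) ≤ κ * #R := by
    by_contra hcon
    push Not at hcon
    have h1 := mass hG H hYH hbig
    have h2 : ∀ ξ ∈ annc n H,
        ‖cs Y ξ‖ ^ 2 * (κ * #R) ≤ ‖cs Y ξ‖ ^ 2 * (#(N ξ) : ℝ) := fun ξ hξ =>
      mul_le_mul_of_nonneg_left (hcon ξ (mem_annc.1 hξ)).le (sq_nonneg _)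
    -- a strict inequality somewhere
    obtain ⟨ξ₁, hξ₁, hpos⟩ : ∃ ξ ∈ annc n H, 0 < ‖cs Y ξ‖ ^ 2 := by
      by_contra hcon2
      push Not at hcon2
      have h3 : ∑ ξ ∈ annc n H, ‖cs Y ξ‖ ^ 2 ≤ 0 := sum_nonpos hcon2
      have h4 : 0 < P * #Y := by positivity
      linarith
    have h3 : ∑ ξ ∈ annc n H, ‖cs Y ξ‖ ^ 2 * (κ * #R) <
        ∑ ξ ∈ annc n H, ‖cs Y ξ‖ ^ 2 * (#(N ξ) : ℝ) := by
      refine sum_lt_sum h2 ⟨ξ₁, hξ₁, ?_⟩
      exact mul_lt_mul_of_pos_left (hcon ξ₁ (mem_annc.1 hξ₁)) hpos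
    have h4 : ∑ ξ ∈ annc n H, ‖cs Y ξ‖ ^ 2 * (#(N ξ) : ℝ) ≤
        ∑ ξ : G →+ ZMod n, ‖cs Y ξ‖ ^ 2 * (#(N ξ) : ℝ) :=
      sum_le_sum_of_subset_of_nonneg (subset_univ _) fun _ _ _ => by positivity
    rw [← sum_mul] at h3
    have h5 : 0 ≤ κ * (#R : ℝ) := by positivity
    have h6 := mul_le_mul_of_nonneg_right h1 h5
    have h7 : (#R : ℝ) * (κ / 2 * (P * #Y)) * 2 = P * #Y * (κ * #R) := by ring
    linarith
  refine ⟨ξ, ?_, fun x => ξ (q (x : G ⧸ H)), ?_, ?_⟩
  · push Not at hξ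
    exact hξ
  · intro x y hxy
    have h1 : (x : G ⧸ H) = (y : G ⧸ H) := by
      rw [eq_comm, QuotientAddGroup.eq]
      rw [sub_eq_add_neg, add_comm] at hxy
      exact hxy
    simp only [h1]
  · have h1 : A.filter (fun a => (W : ℤ) ≤ |(ξ a - ξ (q (a : G ⧸ H))).valMinAbs|) ⊆ B ∪ N ξ := by
      intro a ha
      rw [mem_filter] at ha
      rw [mem_union]
      by_cases h : a ∈ B
      · exact Or.inl h
      · right
        rw [hN]
        refine mem_filter.2 ⟨mem_sdiff.2 ⟨ha.1, h⟩, ?_⟩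
        rw [ph_sub]
        exact ha.2
    have h2 := (card_le_card h1).trans (card_union_le _ _)
    have h3 : (#(A.filter (fun a => (W : ℤ) ≤ |(ξ a - ξ (q (a : G ⧸ H))).valMinAbs|)) : ℝ) ≤
        #B + #(N ξ) := by exact_mod_cast h2
    have h4 : (#B : ℝ) ≤ 2 * M₀ := by
      rw [hBc]
      push_cast
      have : (m : ℝ) ≤ M₀ := by exact_mod_cast hm.le
      linarith
    have h5 : (#R : ℝ) ≤ #A := by exact_mod_cast card_le_card sdiff_subset
    have h6 : κ * (#R : ℝ) ≤ κ * #A := mul_le_mul_of_nonneg_left h5 hκ.le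
    linarith

end

end FillM

open FillM in
/-- **fill or strip**: disjoint pairs of `A` whose subset sums are a coset of `H`, or a character
that is nontrivial on `H` and has small values on the rows (cosets of `H`) of almost all of `A` -/
theorem fill_group {G : Type*} [AddCommGroup G] [Fintype G] [DecidableEq G] {n : ℕ} [NeZero n]
    (hG : ∀ x : G, n • x = 0) (H : AddSubgroup G) {J W M₀ : ℕ} {κ : ℝ} (hκ : 0 < κ)
    (hJW : n ≤ J * W) (hM₀ : (Nat.card H : ℝ) < (1 + κ / (4 * J)) ^ M₀) (A : Finset G) :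
    (∃ m ≤ 2 * M₀, ∃ B ⊆ A, #B = 2 * m ∧ ∃ b₀ : G, ∀ g : G, g - b₀ ∈ H → Hit B m g) ∨
    ∃ ξ : G →+ ZMod n, (∃ h ∈ H, ξ h ≠ 0) ∧ ∃ c : G → ZMod n,
      (∀ x y, x - y ∈ H → c x = c y) ∧
      (#(A.filter (fun a => (W : ℤ) ≤ |(ξ a - c a).valMinAbs|)) : ℝ) ≤ κ * #A + 4 * M₀ := by
  classical
  rcases round hG H hκ hJW hM₀ A with ⟨m₁, hm₁, B₁, hB₁, hB₁c, b₁, Y₁, hY₁, hh₁, hc₁⟩ |
      ⟨ξ, hξ, c, hc, h⟩
  · rcases round hG H hκ hJW hM₀ (A \ B₁) with ⟨m₂, hm₂, B₂, hB₂, hB₂c, b₂, Y₂, hY₂, hh₂, hc₂⟩ |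
      ⟨ξ, hξ, c, hc, h⟩
    · left
      have hdis : Disjoint B₁ B₂ := by
        rw [disjoint_left]
        intro x hx hx'
        exact (mem_sdiff.1 (hB₂ hx')).2 hx
      refine ⟨m₁ + m₂, by omega, B₁ ∪ B₂, union_subset hB₁ (hB₂.trans sdiff_subset), ?_,
        b₁ + b₂, ?_⟩
      · rw [card_union_of_disjoint hdis, hB₁c, hB₂c]
        ring
      · intro g hg
        set U : Finset G := univ.filter (fun x => x ∈ H) with hU
        have hUc : #U = Nat.card H := by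
          rw [hU, ← Fintype.card_subtype, ← Nat.card_eq_fintype_card]
        set h : G := g - (b₁ + b₂) with hh
        obtain ⟨y₁, hy₁, hy₂⟩ : ∃ y₁ ∈ Y₁, h - y₁ ∈ Y₂ := by
          by_contra hcon
          push Not at hcon
          have h1 : Disjoint (Y₁.image (fun y => h - y)) Y₂ := by
            rw [disjoint_left]
            intro x hx hx'
            obtain ⟨y, hy, rfl⟩ := mem_image.1 hx
            exact hcon y hy hx'
          have h2 : Y₁.image (fun y => h - y) ∪ Y₂ ⊆ U := by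
            intro x hx
            rw [hU, mem_filter]
            refine ⟨mem_univ _, ?_⟩
            rw [mem_union, mem_image] at hx
            rcases hx with ⟨y, hy, rfl⟩ | hx
            · exact H.sub_mem hg (hY₁ y hy)
            · exact hY₂ x hx
          have h3 := card_le_card h2
          rw [card_union_of_disjoint h1, card_image_of_injective _ (sub_right_injective),
            hUc] at h3
          omega
        obtain ⟨T₁, hT₁, hT₁c, hT₁s⟩ := hh₁ y₁ hy₁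
        obtain ⟨T₂, hT₂, hT₂c, hT₂s⟩ := hh₂ _ hy₂
        refine ⟨T₁ ∪ T₂, union_subset_union hT₁ hT₂, ?_, ?_⟩
        · rw [card_union_of_disjoint (disjoint_of_subset_left hT₁
            (disjoint_of_subset_right hT₂ hdis)), hT₁c, hT₂c]
        · rw [sum_union (disjoint_of_subset_left hT₁
            (disjoint_of_subset_right hT₂ hdis)), hT₁s, hT₂s, hh]
          abel
    · right
      refine ⟨ξ, hξ, c, hc, ?_⟩
      have h1 : A.filter (fun a => (W : ℤ) ≤ |(ξ a - c a).valMinAbs|) ⊆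
          B₁ ∪ (A \ B₁).filter (fun a => (W : ℤ) ≤ |(ξ a - c a).valMinAbs|) := by
        intro a ha
        rw [mem_filter] at ha
        rw [mem_union, mem_filter, mem_sdiff]
        by_cases h : a ∈ B₁
        · exact Or.inl h
        · exact Or.inr ⟨⟨ha.1, h⟩, ha.2⟩
      have h2 := (card_le_card h1).trans (card_union_le _ _)
      have h3 : (#(A.filter (fun a => (W : ℤ) ≤ |(ξ a - c a).valMinAbs|)) : ℝ) ≤
          #B₁ + #((A \ B₁).filter (fun a => (W : ℤ) ≤ |(ξ a - c a).valMinAbs|)) := by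
        exact_mod_cast h2
      have h4 : (#B₁ : ℝ) ≤ 2 * M₀ := by
        rw [hB₁c]
        push_cast
        have : (m₁ : ℝ) ≤ M₀ := by exact_mod_cast hm₁
        linarith
      have h5 : (#(A \ B₁) : ℝ) ≤ #A := by exact_mod_cast card_le_card sdiff_subset
      have h6 : κ * (#(A \ B₁) : ℝ) ≤ κ * #A := mul_le_mul_of_nonneg_left h5 hκ.le
      linarith
  · right
    refine ⟨ξ, hξ, c, hc, ?_⟩
    have : (0 : ℝ) ≤ M₀ := Nat.cast_nonneg _
    linarith

end Pool.Agent.Lib.MPa7239a.R3
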