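import Pool.Agent.Lib.MP_a7239a_co.R3.Defs
import Pool.Agent.Lib.MP_a7239a_co.R3.FOUR

/-!
# KER
-/

set_option autoImplicit false

open Finset

namespace Pool.Agent.Lib.MPa7239a.R3

namespace KerM

/-- the real part of the character -/
theorem re_char {p : ℕ} [NeZero p] (a : ZMod p) :
    (ZMod.stdAddChar a : ℂ).re = Real.cos (2 * Real.pi * (a.valMinAbs : ℝ) / p) := by
  have h1 : (ZMod.stdAddChar a : ℂ) = ZMod.stdAddChar ((a.valMinAbs : ℤ) : ZMod p) := by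
    rw [ZMod.coe_valMinAbs]
  rw [h1, ZMod.stdAddChar_coe]
  have h2 : (2 * Real.pi * Complex.I * (a.valMinAbs : ℂ) / (p : ℂ) : ℂ) =
      ((2 * Real.pi * (a.valMinAbs : ℝ) / p : ℝ) : ℂ) * Complex.I := by
    push_cast
    ring
  rw [h2, Complex.exp_ofReal_mul_I_re]

end KerM

theorem ker_bound {p : ℕ} [Fact p.Prime] {J W : ℕ} (_hJ : 1 ≤ J) (hJW : p ≤ J * W) {t : ZMod p}
    (ht : W ≤ t.valMinAbs.natAbs) :
    ∑ j ∈ range J, Real.cos (2 * Real.pi * (((j • t : ZMod p)).valMinAbs : ℝ) / p) ≤ J / 2 := by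
  have hp0 : 0 < p := (Fact.out : p.Prime).pos
  have : NeZero p := ⟨hp0.ne'⟩
  have hW : 1 ≤ W := by
    rcases Nat.eq_zero_or_pos W with h | h
    · rw [h, mul_zero] at hJW
      omega
    · exact h
  have h1 := FillM.geom (ξ := AddMonoidHom.id (ZMod p)) (d := t) hJW hW (by
    change (W : ℤ) ≤ |t.valMinAbs|
    rw [← Int.natCast_natAbs]
    exact_mod_cast ht)
  have h2 : ∑ j ∈ range J, (ZMod.stdAddChar (RG.ph (AddMonoidHom.id (ZMod p)) (j • t)) : ℂ).re =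
      ∑ j ∈ range J, Real.cos (2 * Real.pi * (((j • t : ZMod p)).valMinAbs : ℝ) / p) :=
    sum_congr rfl fun j _ => KerM.re_char _
  rw [h2] at h1
  linarith

end Pool.Agent.Lib.MPa7239a.R3
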