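import Pool.Agent.Lib.MP_a7239a_co.R3.PARS
import Pool.Agent.Lib.MP_a7239a_co.R3.KER

/-!
# R3, module CHAR: a linear form from a stuck round
-/

set_option autoImplicit false

open Finset
open scoped Pointwise

namespace Pool.Agent.Lib.MPa7239a.R3

open Pool.Agent.Lib.MPa7239a.GC

namespace CHARM

section
variable {p : ℕ} [Fact p.Prime] {G : Type*} [AddCommGroup G] [Module (ZMod p) G] [Fintype G]
  [DecidableEq G]

omit [Fact p.Prime] [Module (ZMod p) G] [Fintype G] in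
theorem mem_add_sing {Y : Finset G} {d x : G} : x ∈ Y + {d} ↔ ∃ y ∈ Y, y + d = x := by
  rw [mem_add]
  constructor
  · rintro ⟨y, hy, z, hz, rfl⟩
    rw [mem_singleton] at hz
    exact ⟨y, hy, by rw [hz]⟩
  · rintro ⟨y, hy, rfl⟩
    exact ⟨y, hy, d, mem_singleton_self d, rfl⟩

omit [Fact p.Prime] [Module (ZMod p) G] [Fintype G] in
/-- translates by multiples -/
theorem sdiff_nsmul (Y : Finset G) (d : G) (j : ℕ) :
    #((Y + {j • d}) \ Y) ≤ j * #((Y + {d}) \ Y) := by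
  induction j with
  | zero =>
    rw [zero_smul, zero_mul]
    have : (Y + {(0 : G)}) \ Y = ∅ := by
      rw [sdiff_eq_empty_iff_subset]
      intro x hx
      obtain ⟨y, hy, rfl⟩ := mem_add_sing.1 hx
      rwa [add_zero]
    rw [this, card_empty]
  | succ j ih =>
    have h1 : (Y + {(j + 1) • d}) \ Y ⊆ (((Y + {j • d}) \ Y) + {d}) ∪ ((Y + {d}) \ Y) := by
      intro x hx
      rw [mem_sdiff, mem_add_sing] at hx
      obtain ⟨⟨y, hy, rfl⟩, hxY⟩ := hx
      rw [mem_union]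
      by_cases h2 : y + j • d ∈ Y
      · right
        rw [mem_sdiff, mem_add_sing]
        exact ⟨⟨y + j • d, h2, by rw [succ_nsmul, add_assoc]⟩, hxY⟩
      · left
        rw [mem_add_sing]
        refine ⟨y + j • d, ?_, by rw [succ_nsmul, add_assoc]⟩
        rw [mem_sdiff, mem_add_sing]
        exact ⟨⟨y, hy, rfl⟩, h2⟩
    have h2 := (card_le_card h1).trans (card_union_le _ _)
    rw [card_add_singleton] at h2
    rw [Nat.succ_mul]
    omega

end

end CHARM

section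
variable {p : ℕ} [Fact p.Prime] {G : Type*} [AddCommGroup G] [Module (ZMod p) G] [Fintype G]
  [DecidableEq G]

/-- **CHAR.** -/
theorem char_exists (H : Submodule (ZMod p) G) {Y : Finset G} (hY : Y.Nonempty)
    (hYH : ∀ y ∈ Y, y ∈ H) (h2 : 2 * #Y ≤ Nat.card H) {B : Finset G} {q : G → G} {u J W : ℕ}
    (hu : 1 ≤ u) (hJ : 1 ≤ J) (hJW : p ≤ J * W)
    (hst : ∀ a ∈ B, 4 * u * J * #((Y + {a - q a}) \ Y) < #Y) :
    ∃ ξ : G →ₗ[ZMod p] ZMod p, (∃ h ∈ H, ξ h ≠ 0) ∧
      u * #{a ∈ B | W ≤ (ξ (a - q a)).valMinAbs.natAbs} ≤ #B := by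
  obtain ⟨S, w, hS, hsum, hd⟩ := pars H hY hYH h2
  have hYpos : (0 : ℝ) < #Y := by exact_mod_cast hY.card_pos
  have hu' : (1 : ℝ) ≤ u := by exact_mod_cast hu
  have hJ' : (1 : ℝ) ≤ J := by exact_mod_cast hJ
  have hsum0 : 0 < ∑ ξ ∈ S, w ξ := by linarith
  -- the terms
  set F : (G →ₗ[ZMod p] ZMod p) → ℝ := fun ξ => ∑ a ∈ B, ∑ j ∈ range J,
    (1 - Real.cos (2 * Real.pi * (((j • ξ (a - q a) : ZMod p)).valMinAbs : ℝ) / p)) with hF
  have h4 : ∑ ξ ∈ S, w ξ * F ξ ≤ #B * (J * (#Y / (4 * u))) := by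
    have e : ∑ ξ ∈ S, w ξ * F ξ = ∑ a ∈ B, ∑ j ∈ range J, ∑ ξ ∈ S,
        w ξ * (1 - Real.cos (2 * Real.pi * ((ξ (j • (a - q a))).valMinAbs : ℝ) / p)) := by
      simp only [hF, mul_sum]
      rw [sum_comm]
      refine sum_congr rfl fun a _ => ?_
      rw [sum_comm]
      refine sum_congr rfl fun j _ => sum_congr rfl fun ξ _ => ?_
      rw [map_nsmul]
    rw [e]
    have h5 : ∀ a ∈ B, ∑ j ∈ range J, ∑ ξ ∈ S,
        w ξ * (1 - Real.cos (2 * Real.pi * ((ξ (j • (a - q a))).valMinAbs : ℝ) / p)) ≤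
        J * (#Y / (4 * u)) := by
      intro a ha
      have h6 : ∀ j ∈ range J, ∑ ξ ∈ S,
          w ξ * (1 - Real.cos (2 * Real.pi * ((ξ (j • (a - q a))).valMinAbs : ℝ) / p)) ≤
          #Y / (4 * u) := by
        intro j hj
        rw [mem_range] at hj
        refine (hd (j • (a - q a))).trans ?_
        rw [le_div_iff₀ (by positivity)]
        have h7 := CHARM.sdiff_nsmul Y (a - q a) j
        have h8 := hst a ha
        have h9 : 4 * u * #((Y + {j • (a - q a)}) \ Y) ≤ #Y := by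
          calc 4 * u * #((Y + {j • (a - q a)}) \ Y) ≤ 4 * u * (j * #((Y + {a - q a}) \ Y)) :=
                Nat.mul_le_mul_left _ h7
            _ ≤ 4 * u * (J * #((Y + {a - q a}) \ Y)) :=
                Nat.mul_le_mul_left _ (Nat.mul_le_mul_right _ hj.le)
            _ = 4 * u * J * #((Y + {a - q a}) \ Y) := by ring
            _ ≤ #Y := h8.le
        have h10 : ((4 * u * #((Y + {j • (a - q a)}) \ Y) : ℕ) : ℝ) ≤ #Y := by exact_mod_cast h9
        push_cast at h10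
        linarith
      have := sum_le_card_nsmul (range J) _ _ h6
      rwa [card_range, nsmul_eq_mul] at this
    have := sum_le_card_nsmul B _ _ h5
    rwa [nsmul_eq_mul] at this
  obtain ⟨ξ, hξS, hξF⟩ : ∃ ξ ∈ S, F ξ ≤ #B * (J / (2 * u)) := by
    by_contra hcon
    push Not at hcon
    have h5 : #B * (J / (2 * u)) * ∑ ξ ∈ S, w ξ < ∑ ξ ∈ S, w ξ * F ξ := by
      rw [mul_sum]
      obtain ⟨ξ₀, hξ₀, hw₀⟩ : ∃ ξ ∈ S, 0 < w ξ := by
        by_contra hc
        push Not at hc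
        have := sum_nonpos hc
        linarith
      refine sum_lt_sum (fun ξ hξ => ?_) ⟨ξ₀, hξ₀, ?_⟩
      · rw [mul_comm]
        exact mul_le_mul_of_nonneg_left (hcon ξ hξ).le (hS ξ hξ).1
      · rw [mul_comm]
        exact mul_lt_mul_of_pos_left (hcon ξ₀ hξ₀) hw₀
    have h6 : (#B : ℝ) * (J * (#Y / (4 * u))) ≤ #B * (J / (2 * u)) * ∑ ξ ∈ S, w ξ := by
      have h7 : (#B : ℝ) * (J * (#Y / (4 * u))) = #B * (J / (2 * u)) * (#Y / 2) := by
        field_simp
        ring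
      rw [h7]
      refine mul_le_mul_of_nonneg_left (by linarith) (by positivity)
    linarith
  refine ⟨ξ, (hS ξ hξS).2, ?_⟩
  -- the bad elements
  set B' := {a ∈ B | W ≤ (ξ (a - q a)).valMinAbs.natAbs} with hB'
  have h5 : (#B' : ℝ) * (J / 2) ≤ F ξ := by
    have h6 : (#B' : ℝ) * (J / 2) ≤ ∑ a ∈ B', ∑ j ∈ range J,
        (1 - Real.cos (2 * Real.pi * (((j • ξ (a - q a) : ZMod p)).valMinAbs : ℝ) / p)) := by
      rw [← nsmul_eq_mul]
      refine card_nsmul_le_sum B' _ _ fun a ha => ?_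
      have h7 := ker_bound (p := p) hJ hJW (mem_filter.1 ha).2
      rw [sum_sub_distrib, sum_const, card_range, nsmul_eq_mul, mul_one]
      linarith
    refine h6.trans (sum_le_sum_of_subset_of_nonneg (filter_subset _ _) fun a _ _ => ?_)
    refine sum_nonneg fun j _ => ?_
    have := Real.cos_le_one (2 * Real.pi * (((j • ξ (a - q a) : ZMod p)).valMinAbs : ℝ) / p)
    linarith
  have h6 : (#B' : ℝ) * (J / 2) ≤ #B * (J / (2 * u)) := h5.trans hξF
  have h7 : (#B' : ℝ) * u ≤ #B := by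
    have h8 : (#B : ℝ) * (J / (2 * u)) * u = #B * (J / 2) := by
      field_simp
    have h9 : (#B' : ℝ) * (J / 2) * u ≤ #B * (J / 2) := by
      rw [← h8]
      exact mul_le_mul_of_nonneg_right h6 (by positivity)
    have h10 : (0 : ℝ) < J / 2 := by positivity
    nlinarith
  have h8 : ((u * #B' : ℕ) : ℝ) ≤ (#B : ℝ) := by
    push_cast
    linarith
  exact_mod_cast h8

end

end Pool.Agent.Lib.MPa7239a.R3
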