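import Pool.Agent.Lib.MP_a7239a_co.R3.Defs

/-!
# Module RON: Rónyai's bound `s(Z_p^2) <= 4 p - 2`
-/

set_option autoImplicit false

open Finset

namespace Pool.Agent.Lib.MPa7239a.R3

namespace RON

variable {p : ℕ} [Fact p.Prime] {ι : Type*} [DecidableEq ι]

/-- the indicator function of `T` -/
def ind (p : ℕ) (T : Finset ι) (i : ι) : ZMod p := if i ∈ T then 1 else 0

theorem prod_ind (T : Finset ι) (m : ι →₀ ℕ) :
    ∏ i ∈ m.support, ind p T i ^ m i = if m.support ⊆ T then 1 else 0 := by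
  split_ifs with h
  · refine Finset.prod_eq_one fun i hi => ?_
    simp [ind, h hi]
  · obtain ⟨i, hi, hiT⟩ := Finset.not_subset.mp h
    refine Finset.prod_eq_zero hi ?_
    have : m i ≠ 0 := Finsupp.mem_support_iff.mp hi
    simp [ind, hiT, this]

theorem alt_mono {A M : Finset ι} (h : #M < #A) :
    ∑ T ∈ A.powerset, (-1 : ZMod p) ^ #T * (if M ⊆ T then 1 else 0) = 0 := by
  obtain ⟨a, haA, haM⟩ : ∃ a ∈ A, a ∉ M := by
    by_contra hcon
    push Not at hcon
    exact absurd (Finset.card_le_card hcon) (by omega)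
  have hA : A = insert a (A.erase a) := (Finset.insert_erase haA).symm
  have ha : a ∉ A.erase a := Finset.notMem_erase a A
  rw [hA, Finset.sum_powerset_insert ha, ← Finset.sum_add_distrib]
  refine Finset.sum_eq_zero fun T hT => ?_
  have haT : a ∉ T := fun h => ha (Finset.mem_powerset.mp hT h)
  have h1 : (M ⊆ insert a T) ↔ M ⊆ T := by
    constructor
    · intro h x hx
      rcases Finset.mem_insert.mp (h hx) with h2 | h2
      · exact absurd (h2 ▸ hx) haM
      · exact h2
    · intro h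
      exact h.trans (Finset.subset_insert a T)
  rw [Finset.card_insert_of_notMem haT]
  simp only [h1]
  ring

/-- the alternating sum of a polynomial of small degree over a cube is zero -/
theorem alt {A : Finset ι} {P : MvPolynomial ι (ZMod p)} (h : P.totalDegree < #A) :
    ∑ T ∈ A.powerset, (-1 : ZMod p) ^ #T * MvPolynomial.eval (ind p T) P = 0 := by
  simp only [MvPolynomial.eval_eq, Finset.mul_sum]
  rw [Finset.sum_comm]
  refine Finset.sum_eq_zero fun m hm => ?_
  have h1 : ∀ T ∈ A.powerset, (-1 : ZMod p) ^ #T * (MvPolynomial.coeff m P *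
      ∏ i ∈ m.support, ind p T i ^ m i) =
      MvPolynomial.coeff m P * ((-1 : ZMod p) ^ #T * (if m.support ⊆ T then 1 else 0)) := by
    intro T _
    rw [prod_ind]
    ring
  rw [Finset.sum_congr rfl h1, ← Finset.mul_sum, alt_mono, mul_zero]
  refine lt_of_le_of_lt ?_ h
  refine le_trans ?_ (MvPolynomial.le_totalDegree hm)
  rw [Finsupp.sum]
  calc #m.support = ∑ i ∈ m.support, 1 := by simp
    _ ≤ ∑ i ∈ m.support, m i := Finset.sum_le_sum fun i hi =>
        Nat.one_le_iff_ne_zero.mpr (Finsupp.mem_support_iff.mp hi)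

/-- the linear form with coefficients `a` -/
noncomputable def lin (A : Finset ι) (a : ι → ZMod p) : MvPolynomial ι (ZMod p) :=
  ∑ i ∈ A, MvPolynomial.C (a i) * MvPolynomial.X i

theorem deg_lin (A : Finset ι) (a : ι → ZMod p) : (lin A a).totalDegree ≤ 1 := by
  refine MvPolynomial.totalDegree_finsetSum_le fun i _ => ?_
  refine (MvPolynomial.totalDegree_mul _ _).trans ?_
  rw [MvPolynomial.totalDegree_C, MvPolynomial.totalDegree_X]

theorem eval_lin {A T : Finset ι} (h : T ⊆ A) (a : ι → ZMod p) :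
    MvPolynomial.eval (ind p T) (lin A a) = ∑ i ∈ T, a i := by
  rw [lin, map_sum]
  rw [← Finset.sum_subset h]
  · refine Finset.sum_congr rfl fun i hi => ?_
    simp [ind, hi]
  · intro i _ hi
    simp [ind, hi]

/-- the factor which tests `∑ a = 0` -/
noncomputable def tst (A : Finset ι) (a : ι → ZMod p) : MvPolynomial ι (ZMod p) :=
  lin A a ^ (p - 1) - 1

theorem deg_tst (A : Finset ι) (a : ι → ZMod p) : (tst A a).totalDegree ≤ p - 1 := by
  refine (MvPolynomial.totalDegree_sub _ _).trans ?_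
  rw [MvPolynomial.totalDegree_one]
  refine max_le ?_ (Nat.zero_le _)
  refine (MvPolynomial.totalDegree_pow _ _).trans ?_
  calc (p - 1) * (lin A a).totalDegree ≤ (p - 1) * 1 := Nat.mul_le_mul_left _ (deg_lin A a)
    _ = p - 1 := mul_one _

theorem eval_tst {A T : Finset ι} (h : T ⊆ A) (a : ι → ZMod p) :
    MvPolynomial.eval (ind p T) (tst A a) = if ∑ i ∈ T, a i = 0 then -1 else 0 := by
  rw [tst, map_sub, map_pow, eval_lin h, map_one]
  have hp : 1 < p := (Fact.out : p.Prime).one_lt
  split_ifs with h0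
  · rw [h0, zero_pow (by omega)]
    ring
  · rw [ZMod.pow_card_sub_one_eq_one h0, sub_self]

/-- the three tests together -/
noncomputable def tst3 (A : Finset ι) (f : ι → ZMod p × ZMod p) : MvPolynomial ι (ZMod p) :=
  tst A (fun _ => 1) * tst A (fun i => (f i).1) * tst A (fun i => (f i).2)

theorem deg_tst3 (A : Finset ι) (f : ι → ZMod p × ZMod p) :
    (tst3 A f).totalDegree ≤ 3 * (p - 1) := by
  refine (MvPolynomial.totalDegree_mul _ _).trans ?_
  have h1 := MvPolynomial.totalDegree_mul (tst A (fun _ : ι => (1 : ZMod p)))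
    (tst A (fun i => (f i).1))
  have h2 := deg_tst A (fun _ : ι => (1 : ZMod p))
  have h3 := deg_tst A (fun i => (f i).1)
  have h4 := deg_tst A (fun i => (f i).2)
  omega

theorem eval_tst3 {A T : Finset ι} (h : T ⊆ A) (f : ι → ZMod p × ZMod p) :
    MvPolynomial.eval (ind p T) (tst3 A f) =
      if p ∣ #T ∧ ∑ i ∈ T, f i = 0 then -1 else 0 := by
  rw [tst3, map_mul, map_mul, eval_tst h, eval_tst h, eval_tst h]
  have h1 : (∑ i ∈ T, (1 : ZMod p) = 0) ↔ p ∣ #T := by
    rw [Finset.sum_const, nsmul_eq_mul, mul_one, ZMod.natCast_eq_zero_iff]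
  have h2 : (∑ i ∈ T, f i = 0) ↔ (∑ i ∈ T, (f i).1 = 0 ∧ ∑ i ∈ T, (f i).2 = 0) := by
    rw [Prod.ext_iff, Prod.fst_sum, Prod.snd_sum]
    rfl
  simp only [h1, h2]
  by_cases ha : p ∣ #T <;> by_cases hb : ∑ i ∈ T, (f i).1 = 0 <;>
    by_cases hc : ∑ i ∈ T, (f i).2 = 0 <;> simp [ha, hb, hc]

/-- `3 p - 2` elements contain a nonempty zero-sum subset of size divisible by `p` -/
theorem exists_mul {A : Finset ι} (f : ι → ZMod p × ZMod p) (hA : 3 * p ≤ #A + 2) :
    ∃ T ⊆ A, T.Nonempty ∧ p ∣ #T ∧ ∑ i ∈ T, f i = 0 := by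
  have hp : 1 < p := (Fact.out : p.Prime).one_lt
  by_contra hcon
  push Not at hcon
  have h0 := alt (A := A) (P := tst3 A f) (by have := deg_tst3 A f; omega)
  rw [Finset.sum_eq_single (∅ : Finset ι)] at h0
  · rw [eval_tst3 (Finset.empty_subset A)] at h0
    simp at h0
  · intro T hT hne
    rw [eval_tst3 (Finset.mem_powerset.mp hT), if_neg, mul_zero]
    rintro ⟨h1, h2⟩
    exact hcon T (Finset.mem_powerset.mp hT) (Finset.nonempty_iff_ne_empty.mpr hne) h1 h2
  · intro h
    exact absurd (Finset.empty_mem_powerset A) h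

/-- a zero-sum set of `3 p` elements contains a zero-sum set of `p` elements -/
theorem three {T : Finset ι} (f : ι → ZMod p × ZMod p) (hT : #T = 3 * p)
    (h0 : ∑ i ∈ T, f i = 0) : ∃ U ⊆ T, #U = p ∧ ∑ i ∈ U, f i = 0 := by
  have hp : 1 < p := (Fact.out : p.Prime).one_lt
  obtain ⟨A, hAT, hA⟩ := Finset.exists_subset_card_eq (s := T) (n := 3 * p - 2) (by omega)
  obtain ⟨U, hUA, hne, ⟨k, hk⟩, hU⟩ := exists_mul (A := A) f (by omega)
  have hUle := Finset.card_le_card hUA
  have hpos := hne.card_pos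
  have hk0 : k ≠ 0 := by
    rintro rfl
    omega
  have hk3 : k < 3 := by
    by_contra hc
    have : p * 3 ≤ p * k := Nat.mul_le_mul_left p (by omega)
    omega
  have hUT : U ⊆ T := hUA.trans hAT
  have hk12 : k = 1 ∨ k = 2 := by omega
  rcases hk12 with rfl | rfl
  · exact ⟨U, hUT, by omega, hU⟩
  · refine ⟨T \ U, Finset.sdiff_subset, ?_, ?_⟩
    · rw [Finset.card_sdiff_of_subset hUT]
      omega
    · have := Finset.sum_sdiff hUT (f := f)
      rw [hU, h0, add_zero] at this
      exact this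

/-- the last factor: `binom(#T, p) - 2` -/
noncomputable def lst (A : Finset ι) : MvPolynomial ι (ZMod p) :=
  ∑ M ∈ A.powersetCard p, ∏ i ∈ M, MvPolynomial.X i - MvPolynomial.C 2

theorem deg_lst (A : Finset ι) : (lst (p := p) A).totalDegree ≤ p := by
  refine (MvPolynomial.totalDegree_sub _ _).trans ?_
  rw [MvPolynomial.totalDegree_C]
  refine max_le ?_ (Nat.zero_le _)
  refine MvPolynomial.totalDegree_finsetSum_le fun M hM => ?_
  refine (MvPolynomial.totalDegree_finset_prod _ _).trans ?_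
  simp only [MvPolynomial.totalDegree_X]
  rw [Finset.sum_const, (Finset.mem_powersetCard.mp hM).2, smul_eq_mul, mul_one]

theorem eval_lst {A T : Finset ι} (h : T ⊆ A) :
    MvPolynomial.eval (ind p T) (lst (p := p) A) = ((#T).choose p : ZMod p) - 2 := by
  rw [lst, map_sub, map_sum, MvPolynomial.eval_C]
  congr 1
  have h1 : ∀ M ∈ A.powersetCard p, MvPolynomial.eval (ind p T)
      (∏ i ∈ M, MvPolynomial.X i : MvPolynomial ι (ZMod p)) = if M ⊆ T then 1 else 0 := by
    intro M _
    rw [map_prod]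
    simp only [MvPolynomial.eval_X]
    split_ifs with hM
    · exact Finset.prod_eq_one fun i hi => by simp [ind, hM hi]
    · obtain ⟨i, hi, hiT⟩ := Finset.not_subset.mp hM
      exact Finset.prod_eq_zero hi (by simp [ind, hiT])
  rw [Finset.sum_congr rfl h1, Finset.sum_boole]
  congr 1
  rw [← Finset.card_powersetCard]
  congr 1
  ext M
  simp only [Finset.mem_filter, Finset.mem_powersetCard]
  constructor
  · rintro ⟨⟨_, h2⟩, h3⟩
    exact ⟨h3, h2⟩
  · rintro ⟨h3, h2⟩
    exact ⟨⟨h3.trans h, h2⟩, h3⟩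

theorem choose_two_p : ((2 * p).choose p : ZMod p) = 2 := by
  have hp : p.Prime := Fact.out
  have h1 : (2 * p).choose p ≡ (2 : ℕ) [MOD p] := by
    have h := Choose.choose_modEq_choose_mod_mul_choose_div_nat (n := 2 * p) (k := p) (p := p)
    rw [Nat.mul_mod_left, Nat.mod_self, Nat.choose_self, one_mul, Nat.mul_div_cancel _ hp.pos,
      Nat.div_self hp.pos] at h
    exact h
  have h2 := (ZMod.natCast_eq_natCast_iff _ _ p).mpr h1
  rw [h2]
  norm_num

/-- Rónyai's bound, exact size -/
theorem ron_exact (h3 : 3 ≤ p) {A : Finset ι} (f : ι → ZMod p × ZMod p)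
    (hA : #A = 4 * p - 2) : ∃ T ⊆ A, #T = p ∧ ∑ a ∈ T, f a = 0 := by
  have hp : p.Prime := Fact.out
  by_contra hcon
  push Not at hcon
  have hdeg : (tst3 A f * lst A).totalDegree < #A := by
    have h1 := MvPolynomial.totalDegree_mul (tst3 A f) (lst (p := p) A)
    have h2 := deg_tst3 A f
    have h4 := deg_lst (p := p) A
    omega
  have h0 := alt (A := A) (P := tst3 A f * lst A) hdeg
  rw [Finset.sum_eq_single (∅ : Finset ι)] at h0
  · rw [map_mul, eval_tst3 (Finset.empty_subset A), eval_lst (Finset.empty_subset A)] at h0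
    have h4 : (0 : ℕ).choose p = 0 := Nat.choose_eq_zero_of_lt hp.pos
    simp only [Finset.card_empty, dvd_zero, Finset.sum_empty, and_self, if_true, pow_zero,
      one_mul, h4, Nat.cast_zero, zero_sub, mul_neg, neg_mul, neg_neg, one_mul] at h0
    have h5 : ((2 : ℕ) : ZMod p) = 0 := by exact_mod_cast h0
    rw [ZMod.natCast_eq_zero_iff] at h5
    have := Nat.le_of_dvd (by norm_num) h5
    omega
  · intro T hT hne
    have hTA := Finset.mem_powerset.mp hT
    have hcard := Finset.card_le_card hTA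
    rw [map_mul, eval_tst3 hTA, eval_lst hTA]
    by_cases hc : p ∣ #T ∧ ∑ i ∈ T, f i = 0
    · obtain ⟨⟨k, hk⟩, hs⟩ := hc
      have hpos := (Finset.nonempty_iff_ne_empty.mpr hne).card_pos
      have hk0 : k ≠ 0 := by
        rintro rfl
        omega
      have hk4 : k < 4 := by
        by_contra hc
        have : p * 4 ≤ p * k := Nat.mul_le_mul_left p (by omega)
        omega
      have hk123 : k = 1 ∨ k = 2 ∨ k = 3 := by omega
      rcases hk123 with rfl | rfl | rfl
      · exact absurd hs (hcon T hTA (by omega))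
      · have h5 : #T = 2 * p := by omega
        rw [h5, choose_two_p]
        ring
      · obtain ⟨U, hUT, hU, hU0⟩ := three f (show #T = 3 * p by omega) hs
        exact absurd hU0 (hcon U (hUT.trans hTA) hU)
    · rw [if_neg hc]
      ring
  · intro h
    exact absurd (Finset.empty_mem_powerset A) h

end RON

variable {p : ℕ} [Fact p.Prime]

/-- Rónyai's bound `s(Z_p^2) <= 4 p - 2` -/
theorem ronyai (h3 : 3 ≤ p) {ι : Type*} [DecidableEq ι] {A : Finset ι}
    (f : ι → ZMod p × ZMod p) (hA : 4 * p ≤ #A + 2) : ∃ T ⊆ A, #T = p ∧ ∑ a ∈ T, f a = 0 := by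
  obtain ⟨B, hBA, hB⟩ := Finset.exists_subset_card_eq (s := A) (n := 4 * p - 2) (by omega)
  obtain ⟨T, hT, h1, h2⟩ := RON.ron_exact h3 f hB
  exact ⟨T, hT.trans hBA, h1, h2⟩

end Pool.Agent.Lib.MPa7239a.R3
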