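import Pool.Agent.Lib.MP_a7239a_co.R3.Defs

/-!
# Module PARS: Parseval for the linear forms on a finite vector space over `ZMod p`
-/

set_option autoImplicit false

open Finset
open scoped Pointwise

namespace Pool.Agent.Lib.MPa7239a.R3

namespace PARS

variable {p : ℕ} [Fact p.Prime] {G : Type*} [AddCommGroup G] [Module (ZMod p) G]

/-- the standard character -/
noncomputable def e (t : ZMod p) : ℂ := ZMod.stdAddChar t

theorem e_add (s t : ZMod p) : e (s + t) = e s * e t := by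
  simp only [e]
  exact AddChar.map_add_eq_mul _ s t

theorem e_zero : e (0 : ZMod p) = 1 := by
  simp only [e]
  exact AddChar.map_zero_eq_one _

theorem e_eq (t : ZMod p) :
    e t = Complex.exp ((2 * Real.pi * (t.valMinAbs : ℝ) / p : ℝ) * Complex.I) := by
  have h : e t = e ((t.valMinAbs : ℤ) : ZMod p) := by rw [ZMod.coe_valMinAbs]
  rw [h, e, ZMod.stdAddChar_coe]
  congr 1
  push_cast
  ring

theorem e_re (t : ZMod p) : (e t).re = Real.cos (2 * Real.pi * (t.valMinAbs : ℝ) / p) := by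
  rw [e_eq, Complex.exp_ofReal_mul_I_re]

theorem e_norm (t : ZMod p) : ‖e t‖ = 1 := by
  rw [e_eq, Complex.norm_exp_ofReal_mul_I]

theorem e_conj (t : ZMod p) : (starRingEnd ℂ) (e t) = e (-t) := by
  have h1 : e t * e (-t) = 1 := by rw [← e_add, add_neg_cancel, e_zero]
  have h2 : e t * (starRingEnd ℂ) (e t) = 1 := by
    rw [Complex.mul_conj, Complex.normSq_eq_norm_sq, e_norm]
    norm_num
  have h0 : e t ≠ 0 := by
    intro h
    have := e_norm t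
    rw [h, norm_zero] at this
    exact zero_ne_one this
  exact mul_left_cancel₀ h0 (h2.trans h1.symm)

theorem e_inj {s t : ZMod p} (h : e s = e t) : s = t := ZMod.injective_stdAddChar h

variable [Fintype (G →ₗ[ZMod p] ZMod p)]

/-- orthogonality -/
theorem orth_ne {x : G} (hx : x ≠ 0) : ∑ ξ : G →ₗ[ZMod p] ZMod p, e (ξ x) = 0 := by
  obtain ⟨ξ₀, h₀⟩ : ∃ ξ₀ : G →ₗ[ZMod p] ZMod p, ξ₀ x ≠ 0 := by
    by_contra hcon
    push Not at hcon
    exact hx ((Module.forall_dual_apply_eq_zero_iff (ZMod p) x).mp hcon)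
  have h1 : e (ξ₀ x) ≠ 1 := by
    intro h
    rw [← e_zero (p := p)] at h
    exact h₀ (e_inj h)
  have h2 : ∑ ξ : G →ₗ[ZMod p] ZMod p, e (ξ x) =
      e (ξ₀ x) * ∑ ξ : G →ₗ[ZMod p] ZMod p, e (ξ x) := by
    rw [Finset.mul_sum]
    refine (Fintype.sum_equiv (Equiv.addLeft ξ₀) _ _ fun ξ => ?_).symm
    rw [← e_add]
    rfl
  have h3 : (1 - e (ξ₀ x)) * ∑ ξ : G →ₗ[ZMod p] ZMod p, e (ξ x) = 0 := by
    rw [sub_mul, one_mul, ← h2, sub_self]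
  rcases mul_eq_zero.mp h3 with h | h
  · exact absurd (sub_eq_zero.mp h).symm h1
  · exact h

theorem orth_zero : ∑ ξ : G →ₗ[ZMod p] ZMod p, e (ξ (0 : G)) =
    (Fintype.card (G →ₗ[ZMod p] ZMod p) : ℂ) := by
  simp [e_zero]

/-- the Fourier transform -/
noncomputable def F (Y : Finset G) (ξ : G →ₗ[ZMod p] ZMod p) : ℂ := ∑ y ∈ Y, e (ξ y)

theorem norm_sq (Y : Finset G) (ξ : G →ₗ[ZMod p] ZMod p) :
    ((‖F Y ξ‖ ^ 2 : ℝ) : ℂ) = ∑ y ∈ Y, ∑ z ∈ Y, e (ξ (y - z)) := by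
  rw [← Complex.normSq_eq_norm_sq, ← Complex.mul_conj, F, map_sum, Finset.sum_mul_sum]
  refine Finset.sum_congr rfl fun y _ => Finset.sum_congr rfl fun z _ => ?_
  rw [e_conj, ← e_add, map_sub, sub_eq_add_neg]

variable [DecidableEq G]

/-- the number of the pairs with difference `d` as a sum over the forms -/
theorem corr (Y : Finset G) (d : G) :
    ∑ ξ : G →ₗ[ZMod p] ZMod p, ((‖F Y ξ‖ ^ 2 : ℝ) : ℂ) * e (ξ d) =
      (Fintype.card (G →ₗ[ZMod p] ZMod p) : ℂ) * (#{y ∈ Y | y + d ∈ Y} : ℂ) := by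
  have h1 : ∀ ξ : G →ₗ[ZMod p] ZMod p, ((‖F Y ξ‖ ^ 2 : ℝ) : ℂ) * e (ξ d) =
      ∑ y ∈ Y, ∑ z ∈ Y, e (ξ (y + d - z)) := by
    intro ξ
    rw [norm_sq, Finset.sum_mul]
    refine Finset.sum_congr rfl fun y _ => ?_
    rw [Finset.sum_mul]
    refine Finset.sum_congr rfl fun z _ => ?_
    rw [← e_add, ← map_add]
    congr 2
    abel
  simp only [h1]
  rw [Finset.sum_comm]
  have h2 : ∀ y ∈ Y, ∑ ξ : G →ₗ[ZMod p] ZMod p, ∑ z ∈ Y, e (ξ (y + d - z)) =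
      if y + d ∈ Y then (Fintype.card (G →ₗ[ZMod p] ZMod p) : ℂ) else 0 := by
    intro y _
    rw [Finset.sum_comm]
    split_ifs with h
    · rw [Finset.sum_eq_single (y + d)]
      · rw [sub_self, orth_zero]
      · intro z _ hz
        exact orth_ne (sub_ne_zero.mpr hz.symm)
      · intro h'
        exact absurd h h'
    · refine Finset.sum_eq_zero fun z hz => orth_ne (sub_ne_zero.mpr ?_)
      rintro rfl
      exact h hz
  rw [Finset.sum_congr rfl h2, ← Finset.sum_filter, Finset.sum_const, nsmul_eq_mul, mul_comm]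

/-- real form -/
theorem corr_re (Y : Finset G) (d : G) :
    ∑ ξ : G →ₗ[ZMod p] ZMod p,
      ‖F Y ξ‖ ^ 2 * Real.cos (2 * Real.pi * ((ξ d).valMinAbs : ℝ) / p) =
      (Fintype.card (G →ₗ[ZMod p] ZMod p) : ℝ) * (#{y ∈ Y | y + d ∈ Y} : ℝ) := by
  have h := congrArg Complex.re (corr (p := p) Y d)
  rw [Complex.re_sum] at h
  have h1 : ∀ ξ : G →ₗ[ZMod p] ZMod p, (((‖F Y ξ‖ ^ 2 : ℝ) : ℂ) * e (ξ d)).re =
      ‖F Y ξ‖ ^ 2 * Real.cos (2 * Real.pi * ((ξ d).valMinAbs : ℝ) / p) := by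
    intro ξ
    rw [Complex.re_ofReal_mul, e_re]
  rw [Finset.sum_congr rfl fun ξ _ => h1 ξ] at h
  rw [h]
  rw [← Nat.cast_mul, Complex.natCast_re, Nat.cast_mul]

theorem total (Y : Finset G) :
    ∑ ξ : G →ₗ[ZMod p] ZMod p, ‖F Y ξ‖ ^ 2 =
      (Fintype.card (G →ₗ[ZMod p] ZMod p) : ℝ) * (#Y : ℝ) := by
  have h := corr_re (p := p) Y 0
  simp only [map_zero, ZMod.valMinAbs_zero, Int.cast_zero, mul_zero, zero_div, Real.cos_zero,
    mul_one, add_zero] at h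
  rw [h]
  congr 3
  exact Finset.filter_true_of_mem fun _ h => h

theorem F_van {Y : Finset G} {ξ : G →ₗ[ZMod p] ZMod p} (h : ∀ y ∈ Y, ξ y = 0) :
    ‖F Y ξ‖ ^ 2 = (#Y : ℝ) ^ 2 := by
  have : F Y ξ = (#Y : ℂ) := by
    rw [F, Finset.sum_congr rfl fun y hy => by rw [h y hy, e_zero]]
    simp
  rw [this, Complex.norm_natCast]

theorem diff_card (Y : Finset G) (d : G) :
    (#((Y + {d}) \ Y) : ℝ) = (#Y : ℝ) - (#{y ∈ Y | y + d ∈ Y} : ℝ) := by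
  have h1 : (Y + {d}) \ Y = ({y ∈ Y | y + d ∉ Y}).image (fun y => y + d) := by
    ext z
    simp only [Finset.mem_sdiff, Finset.mem_add, Finset.mem_singleton, Finset.mem_image,
      Finset.mem_filter]
    constructor
    · rintro ⟨⟨y, hy, d', rfl, rfl⟩, h⟩
      exact ⟨y, ⟨hy, h⟩, rfl⟩
    · rintro ⟨y, ⟨hy, h⟩, rfl⟩
      exact ⟨⟨y, hy, d, rfl, rfl⟩, h⟩
  rw [h1, Finset.card_image_of_injective _ (add_left_injective d)]
  have h2 := Finset.card_filter_add_card_filter_not (s := Y) (fun y => y + d ∈ Y)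
  have h3 : (#{y ∈ Y | y + d ∈ Y} : ℝ) + (#{y ∈ Y | y + d ∉ Y} : ℝ) = (#Y : ℝ) := by
    exact_mod_cast h2
  linarith

end PARS

open PARS

variable {p : ℕ} [Fact p.Prime] {G : Type*} [AddCommGroup G] [Module (ZMod p) G] [Fintype G]
  [DecidableEq G]

/-- Parseval for the linear forms -/
theorem pars (H : Submodule (ZMod p) G) {Y : Finset G} (hY : Y.Nonempty)
    (hYH : ∀ y ∈ Y, y ∈ H) (h2 : 2 * #Y ≤ Nat.card H) :
    ∃ (S : Finset (G →ₗ[ZMod p] ZMod p)) (w : (G →ₗ[ZMod p] ZMod p) → ℝ),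
      (∀ ξ ∈ S, 0 ≤ w ξ ∧ ∃ h ∈ H, ξ h ≠ 0) ∧ (#Y : ℝ) ≤ 2 * ∑ ξ ∈ S, w ξ ∧
      ∀ d : G, ∑ ξ ∈ S, w ξ * (1 - Real.cos (2 * Real.pi * ((ξ d).valMinAbs : ℝ) / p)) ≤
        (#((Y + {d}) \ Y) : ℝ) := by
  classical
  haveI : Finite (G →ₗ[ZMod p] ZMod p) := DFunLike.finite _
  letI : Fintype (G →ₗ[ZMod p] ZMod p) := Fintype.ofFinite _
  set D : ℝ := (Fintype.card (G →ₗ[ZMod p] ZMod p) : ℝ) with hD
  have hD0 : 0 < D := by
    rw [hD]
    exact_mod_cast Fintype.card_pos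
  set V : Finset (G →ₗ[ZMod p] ZMod p) := {ξ | ∀ h ∈ H, ξ h = 0} with hV
  set S : Finset (G →ₗ[ZMod p] ZMod p) := {ξ | ¬ ∀ h ∈ H, ξ h = 0} with hS
  have hw0 : ∀ ξ : G →ₗ[ZMod p] ZMod p, 0 ≤ ‖F Y ξ‖ ^ 2 / D := fun ξ => by positivity
  have hsplit : ∀ f : (G →ₗ[ZMod p] ZMod p) → ℝ, ∑ ξ ∈ V, f ξ + ∑ ξ ∈ S, f ξ = ∑ ξ : G →ₗ[ZMod p] ZMod p, f ξ :=
    fun f => Finset.sum_filter_add_sum_filter_not _ _ _
  -- the number of forms vanishing on `H`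
  have hn : (#V : ℝ) * (Nat.card H : ℝ) ≤ D := by
    set HH : Finset G := {h | h ∈ H} with hHH
    have hHc : (#HH : ℝ) = (Nat.card H : ℝ) := by
      congr 1
      rw [Nat.card_eq_fintype_card, Fintype.card_subtype]
    have hHpos : (0 : ℝ) < (#HH : ℝ) := by
      have : (0 : G) ∈ HH := by simp [hHH]
      exact_mod_cast Finset.card_pos.mpr ⟨0, this⟩
    have ht := total (p := p) HH
    have h3 : ∑ ξ ∈ V, ‖F HH ξ‖ ^ 2 = (#V : ℝ) * (#HH : ℝ) ^ 2 := by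
      rw [Finset.sum_congr rfl fun ξ hξ => F_van (Y := HH) (ξ := ξ) ?_]
      · rw [Finset.sum_const, nsmul_eq_mul]
      · intro y hy
        exact (Finset.mem_filter.mp hξ).2 y (Finset.mem_filter.mp hy).2
    have h4 : ∑ ξ ∈ V, ‖F HH ξ‖ ^ 2 ≤ ∑ ξ : G →ₗ[ZMod p] ZMod p, ‖F HH ξ‖ ^ 2 :=
      Finset.sum_le_sum_of_subset_of_nonneg (Finset.subset_univ _) fun _ _ _ => by positivity
    rw [h3, ht, ← hD] at h4
    rw [← hHc]
    have h5 : ((#V : ℝ) * (#HH : ℝ)) * (#HH : ℝ) ≤ D * (#HH : ℝ) := by nlinarith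
    exact le_of_mul_le_mul_right h5 hHpos
  have hYpos : (0 : ℝ) < (#Y : ℝ) := by exact_mod_cast hY.card_pos
  have h2' : 2 * (#Y : ℝ) ≤ (Nat.card H : ℝ) := by exact_mod_cast h2
  refine ⟨S, fun ξ => ‖F Y ξ‖ ^ 2 / D, ?_, ?_, ?_⟩
  · intro ξ hξ
    refine ⟨hw0 ξ, ?_⟩
    have h := (Finset.mem_filter.mp hξ).2
    push Not at h
    exact h
  · have ht := total (p := p) Y
    rw [← hD] at ht
    have h3 : ∑ ξ ∈ V, ‖F Y ξ‖ ^ 2 / D = (#V : ℝ) * ((#Y : ℝ) ^ 2 / D) := by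
      have h9 : ∀ ξ ∈ V, ‖F Y ξ‖ ^ 2 / D = (#Y : ℝ) ^ 2 / D := by
        intro ξ hξ
        rw [F_van (Y := Y) (ξ := ξ) fun y hy => (Finset.mem_filter.mp hξ).2 y (hYH y hy)]
      rw [Finset.sum_congr rfl h9, Finset.sum_const, nsmul_eq_mul]
    have h4 : ∑ ξ : G →ₗ[ZMod p] ZMod p, ‖F Y ξ‖ ^ 2 / D = (#Y : ℝ) := by
      rw [← Finset.sum_div, ht, mul_comm, mul_div_assoc, div_self hD0.ne', mul_one]
    have h5 := hsplit fun ξ => ‖F Y ξ‖ ^ 2 / D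
    rw [h3, h4] at h5
    have h6 : (#V : ℝ) * ((#Y : ℝ) ^ 2 / D) ≤ (#Y : ℝ) / 2 := by
      rw [← mul_div_assoc, div_le_div_iff₀ hD0 (by norm_num)]
      have h7 : (#V : ℝ) * (2 * (#Y : ℝ)) ≤ D :=
        le_trans (mul_le_mul_of_nonneg_left h2' (Nat.cast_nonneg _)) hn
      nlinarith
    linarith
  · intro d
    have h3 : ∑ ξ ∈ S, ‖F Y ξ‖ ^ 2 / D *
        (1 - Real.cos (2 * Real.pi * ((ξ d).valMinAbs : ℝ) / p)) ≤
        ∑ ξ : G →ₗ[ZMod p] ZMod p, ‖F Y ξ‖ ^ 2 / D *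
        (1 - Real.cos (2 * Real.pi * ((ξ d).valMinAbs : ℝ) / p)) := by
      refine Finset.sum_le_sum_of_subset_of_nonneg (Finset.subset_univ _) fun ξ _ _ => ?_
      have := Real.cos_le_one (2 * Real.pi * ((ξ d).valMinAbs : ℝ) / p)
      exact mul_nonneg (hw0 ξ) (by linarith)
    refine h3.trans (le_of_eq ?_)
    rw [diff_card]
    have h4 := total (p := p) Y
    have h5 := corr_re (p := p) Y d
    rw [← hD] at h4 h5
    have h6 : ∑ ξ : G →ₗ[ZMod p] ZMod p, ‖F Y ξ‖ ^ 2 / D *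
        (1 - Real.cos (2 * Real.pi * ((ξ d).valMinAbs : ℝ) / p)) =
        (∑ ξ : G →ₗ[ZMod p] ZMod p, ‖F Y ξ‖ ^ 2 -
          ∑ ξ : G →ₗ[ZMod p] ZMod p, ‖F Y ξ‖ ^ 2 * Real.cos (2 * Real.pi * ((ξ d).valMinAbs : ℝ) / p)) / D := by
      rw [← Finset.sum_sub_distrib, Finset.sum_div]
      refine Finset.sum_congr rfl fun ξ _ => ?_
      ring
    rw [h6, h4, h5, ← mul_sub, mul_comm, mul_div_assoc, div_self hD0.ne', mul_one]

end Pool.Agent.Lib.MPa7239a.R3
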