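import Pool.Agent.Lib.MP_a7239a_co.R3.Defs

/-!
# Rank three, primes (folder R3): module LOW3, the lower bound of Kemnitz (helper25)

The elements `(x, ε, δ)` of `Z_p^3`, `ε, δ ∈ {0, 1}`, `x ≠ 0`.
-/

set_option autoImplicit false

open Finset

namespace Pool.Agent.Lib.MPa7239a.R3

open Pool.Agent.Lib.MPa7239a.GC

namespace LOW3M

/-- `p` elements `0` or `1` with sum `0` are equal -/
theorem bits {p : ℕ} [Fact p.Prime] {ι : Type*} {T : Finset ι} {f : ι → ZMod p}
    (hf : ∀ x ∈ T, f x = 0 ∨ f x = 1) (hT : #T = p) (hs : ∑ x ∈ T, f x = 0) :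
    ∃ ε, ∀ x ∈ T, f x = ε := by
  classical
  have h1 : ∑ x ∈ T, f x = ((#(T.filter (fun x => f x = 1)) : ℕ) : ZMod p) := by
    rw [card_filter, Nat.cast_sum]
    refine sum_congr rfl fun x hx => ?_
    rcases hf x hx with h | h
    · rw [h, if_neg zero_ne_one, Nat.cast_zero]
    · rw [h, if_pos rfl, Nat.cast_one]
  rw [h1, ZMod.natCast_eq_zero_iff] at hs
  rcases Nat.eq_zero_or_pos #(T.filter (fun x => f x = 1)) with h | h
  · refine ⟨0, fun x hx => (hf x hx).resolve_right fun h2 => ?_⟩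
    rw [card_eq_zero] at h
    have : x ∈ T.filter (fun x => f x = 1) := mem_filter.2 ⟨hx, h2⟩
    rw [h] at this
    exact notMem_empty _ this
  · have h2 := Nat.le_of_dvd h hs
    have h3 : T.filter (fun x => f x = 1) = T :=
      eq_of_subset_of_card_le (filter_subset _ _) (by rw [hT]; exact h2)
    refine ⟨1, fun x hx => ?_⟩
    rw [← h3] at hx
    exact (mem_filter.1 hx).2

theorem equiv {p : ℕ} [Fact p.Prime] {G : Type*} [AddCommGroup G] [Finite G]
    [Module (ZMod p) G] (hcard : Nat.card G = p ^ 3) :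
    Nonempty (G ≃+ ZMod p × ZMod p × ZMod p) := by
  have h1 : Module.finrank (ZMod p) G = 3 := by
    have := Fintype.ofFinite G
    have h2 := Module.card_eq_pow_finrank (K := ZMod p) (V := G)
    rw [ZMod.card, ← Nat.card_eq_fintype_card, hcard] at h2
    exact (Nat.pow_right_injective (Fact.out : p.Prime).two_le h2).symm
  have h3 : Module.finrank (ZMod p) (ZMod p × ZMod p × ZMod p) = 3 := by
    rw [Module.finrank_prod, Module.finrank_prod, Module.finrank_self]
  have h4 : Module.finrank (ZMod p) G = Module.finrank (ZMod p) (ZMod p × ZMod p × ZMod p) :=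
    h1.trans h3.symm
  have hfin : Module.Finite (ZMod p) G := Module.Finite.of_finite
  exact ⟨(LinearEquiv.ofFinrankEq _ _ h4).toAddEquiv⟩

end LOW3M

open LOW3M in
theorem low3 {p : ℕ} (hp : p.Prime) (h2 : 3 ≤ p) {G : Type*} [AddCommGroup G] [Fintype G]
    (hexp : AddMonoid.exponent G = p) (hcard : Nat.card G = p ^ 3) :
    ∃ A : Finset G, #A = 4 * p - 4 ∧ ¬ Hit A p 0 := by
  classical
  have : Fact p.Prime := ⟨hp⟩
  have hG : ∀ x : G, p • x = 0 := fun x => by
    rw [← hexp]
    exact AddMonoid.exponent_nsmul_eq_zero x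
  obtain ⟨e⟩ := @equiv p _ G _ _ (AddCommGroup.zmodModule hG) hcard
  set B : Finset (ZMod p × ZMod p × ZMod p) := (univ.erase 0) ×ˢ ({0, 1} ×ˢ {0, 1}) with hB
  have h01 : #({0, 1} : Finset (ZMod p)) = 2 := card_pair zero_ne_one
  refine ⟨B.map e.symm.toEquiv.toEmbedding, ?_, ?_⟩
  · rw [card_map, hB, card_product, card_product, h01, card_erase_of_mem (mem_univ _), card_univ,
      ZMod.card]
    omega
  · rintro ⟨T, hT, hTc, hTs⟩
    have hTB : ∀ x ∈ T, e x ∈ B := by
      intro x hx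
      obtain ⟨y, hy, rfl⟩ := mem_map.1 (hT hx)
      simpa using hy
    have hcoord : ∀ x ∈ T, (e x).1 ≠ 0 ∧ ((e x).2.1 = 0 ∨ (e x).2.1 = 1) ∧
        ((e x).2.2 = 0 ∨ (e x).2.2 = 1) := by
      intro x hx
      have h := hTB x hx
      rw [hB, mem_product, mem_product, mem_erase, mem_insert, mem_singleton, mem_insert,
        mem_singleton] at h
      exact ⟨h.1.1, h.2⟩
    have hs : ∑ x ∈ T, e x = 0 := by rw [← map_sum, hTs, map_zero]
    have hs1 : ∑ x ∈ T, (e x).2.1 = 0 := by
      have := congrArg (fun z : ZMod p × ZMod p × ZMod p => z.2.1) hs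
      simpa [Prod.fst_sum, Prod.snd_sum] using this
    have hs2 : ∑ x ∈ T, (e x).2.2 = 0 := by
      have := congrArg (fun z : ZMod p × ZMod p × ZMod p => z.2.2) hs
      simpa [Prod.fst_sum, Prod.snd_sum] using this
    obtain ⟨ε, hε⟩ := bits (fun x hx => (hcoord x hx).2.1) hTc hs1
    obtain ⟨δ, hδ⟩ := bits (fun x hx => (hcoord x hx).2.2) hTc hs2
    have h3 : #T ≤ #((univ : Finset (ZMod p)).erase 0) := by
      refine card_le_card_of_injOn (fun x => (e x).1) ?_ ?_
      · intro x hx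
        exact mem_coe.2 (mem_erase.2 ⟨(hcoord x hx).1, mem_univ _⟩)
      · intro x hx y hy hxy
        apply e.injective
        refine Prod.ext hxy (Prod.ext ?_ ?_)
        · rw [hε x hx, hε y hy]
        · rw [hδ x hx, hδ y hy]
    rw [card_erase_of_mem (mem_univ _), card_univ, ZMod.card, hTc] at h3
    omega

end Pool.Agent.Lib.MPa7239a.R3
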