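import Pool.Agent.Lib.MP_a7239a_co.R3.Defs

/-! # R3/CARD (helper47) -/

set_option autoImplicit false

open Finset
open scoped Pointwise

namespace Pool.Agent.Lib.MPa7239a.R3

open Pool.Agent.Lib.MPa7239a.GC

variable {p : ℕ} [Fact p.Prime] {G : Type*} [AddCommGroup G] [Module (ZMod p) G] [Fintype G]
  [DecidableEq G]

omit [Fintype G] [DecidableEq G] in
theorem card_inf_ker (H : Submodule (ZMod p) G) {ξ : G →ₗ[ZMod p] ZMod p}
    (h : ∃ x ∈ H, ξ x ≠ 0) :
    p * Nat.card (H ⊓ LinearMap.ker ξ : Submodule (ZMod p) G) = Nat.card H := by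
  have hp : p.Prime := Fact.out
  let f : H →ₗ[ZMod p] ZMod p := ξ.domRestrict H
  have hsurj : Function.Surjective f := by
    obtain ⟨x, hx, hne⟩ := h
    intro y
    refine ⟨(y * (ξ x)⁻¹) • ⟨x, hx⟩, ?_⟩
    rw [map_smul]
    change (y * (ξ x)⁻¹) • ξ x = y
    rw [smul_eq_mul, mul_assoc, inv_mul_cancel₀ hne, mul_one]
  have h1 : Nat.card H = Nat.card (LinearMap.ker f) * Nat.card (ZMod p) := by
    have := AddSubgroup.card_eq_card_quotient_mul_card_addSubgroup (f.toAddMonoidHom.ker)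
    have h2 : Nat.card (H ⧸ f.toAddMonoidHom.ker) = Nat.card (ZMod p) :=
      Nat.card_congr (QuotientAddGroup.quotientKerEquivOfSurjective f.toAddMonoidHom hsurj).toEquiv
    rw [this, h2, mul_comm]
    rfl
  have h2 : Nat.card (LinearMap.ker f) =
      Nat.card (H ⊓ LinearMap.ker ξ : Submodule (ZMod p) G) := by
    refine Nat.card_congr
      { toFun := fun x => ⟨x.1.1, x.1.2, x.2⟩
        invFun := fun x => ⟨⟨x.1, x.2.1⟩, x.2.2⟩
        left_inv := fun x => rfl
        right_inv := fun x => rfl }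
  rw [h1, h2, Nat.card_zmod, mul_comm]

end Pool.Agent.Lib.MPa7239a.R3
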