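import Pool.Agent.Lib.MP_a7239a_co.GC.Defs

/-!
# Rank three, primes (folder R3, captain helper84): definitions

`G` is a finite vector space over `ZMod p`.
-/

set_option autoImplicit false

open Finset
open scoped Pointwise

namespace Pool.Agent.Lib.MPa7239a.R3

open Pool.Agent.Lib.MPa7239a.GC

variable {p : ℕ} {G : Type*} [AddCommGroup G] [Module (ZMod p) G]

/-- `A` is covered by `c` cosets of `H` -/
def Cov (H : Submodule (ZMod p) G) (A : Finset G) (c : ℕ) : Prop :=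
  ∃ C : Finset G, #C ≤ c ∧ ∀ a ∈ A, ∃ x ∈ C, a - x ∈ H

/-- `P ⊆ X` and `Q ⊆ Z` are disjoint sets of `m` elements, and for every `y ∈ Y ⊆ H` the sum
`σ + y` is a sum of `m` elements of `P ∪ Q`; the sum of `P` is in `σ + H` -/
structure Exch [DecidableEq G] (H : Submodule (ZMod p) G) (X Z : Finset G) (m : ℕ)
    (P Q : Finset G) (σ : G) (Y : Finset G) : Prop where
  subX : P ⊆ X
  subZ : Q ⊆ Z
  disj : Disjoint P Q
  cardP : #P = m
  cardQ : #Q = m
  ne : Y.Nonempty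
  mem : ∀ y ∈ Y, y ∈ H
  hit : ∀ y ∈ Y, Hit (P ∪ Q) m (σ + y)
  sumP : (∑ x ∈ P, x) - σ ∈ H

theorem Cov.mono {H : Submodule (ZMod p) G} {A B : Finset G} {c d : ℕ} (h : Cov H A c)
    (hB : B ⊆ A) (hcd : c ≤ d) : Cov H B d := by
  obtain ⟨C, hC, h⟩ := h
  exact ⟨C, hC.trans hcd, fun a ha => h a (hB ha)⟩

end Pool.Agent.Lib.MPa7239a.R3
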