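import Pool.Agent.Lib.MP_a7239a_co.R3.GREEDY
import Pool.Agent.Lib.MP_a7239a_co.R3.CHAR
import Pool.Agent.Lib.MP_a7239a_co.R3.CARD

/-! # R3/FILLZ (helper47) -/

set_option autoImplicit false

open Finset
open scoped Pointwise

namespace Pool.Agent.Lib.MPa7239a.R3

open Pool.Agent.Lib.MPa7239a.GC

variable {p : ℕ} [Fact p.Prime] {G : Type*} [AddCommGroup G] [Module (ZMod p) G] [Fintype G]
  [DecidableEq G]

/-- a stuck round has few unused elements of `X` -/
theorem FILLZM.stuck (L : Submodule (ZMod p) G) (hL : Nat.card L = p) {X' Y : Finset G} {b₀ : G}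
    (hcos : ∀ a ∈ X', a - b₀ ∈ L) {c : ℕ} (hc : 1 ≤ c) (hp : 16 * c ≤ p)
    (hY : Y.Nonempty) (hYH : ∀ y ∈ Y, y ∈ L) (h2 : 2 * #Y ≤ Nat.card L)
    (hst : ∀ a ∈ X', 128 * c * #((Y + {a - b₀}) \ Y) < #Y) : 2 * c * #X' < p := by
  classical
  have hc8 : 0 < 8 * c := by omega
  set W : ℕ := p / (8 * c) with hWdef
  have hW1 : 8 * c * W ≤ p := Nat.mul_div_le p (8 * c)
  have hW2 : p < 8 * c * W + 8 * c := by
    have := Nat.lt_mul_div_succ p hc8
    rw [← hWdef] at this
    linarith [this]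
  have hW0 : 1 ≤ W := by
    rw [hWdef]
    exact (Nat.one_le_div_iff hc8).2 (by omega)
  have hJW : p ≤ 16 * c * W := by
    have : 16 * c * W = 2 * (8 * c * W) := by ring
    omega
  obtain ⟨ξ, hξ, hB⟩ := char_exists L hY hYH h2 (B := X') (q := fun _ => b₀) (u := 2)
    (J := 16 * c) (W := W) (by norm_num) (by omega) hJW (by
      intro a ha
      have := hst a ha
      have h3 : 4 * 2 * (16 * c) = 128 * c := by ring
      rw [h3]
      exact this)
  -- the kernel of `ξ` in `L` is trivial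
  have hker : ∀ x ∈ L, ξ x = 0 → x = 0 := by
    have h1 := card_inf_ker L hξ
    rw [hL] at h1
    have hp0 : 0 < p := (Fact.out : p.Prime).pos
    have h2 : Nat.card (L ⊓ LinearMap.ker ξ : Submodule (ZMod p) G) = 1 :=
      Nat.eq_of_mul_eq_mul_left hp0 (by rw [h1, mul_one])
    intro x hx hx0
    have hmem : x ∈ (L ⊓ LinearMap.ker ξ : Submodule (ZMod p) G) := ⟨hx, hx0⟩
    have hsub := (Nat.card_eq_one_iff_unique.1 h2).1
    have := hsub.elim ⟨x, hmem⟩ 0
    exact congrArg Subtype.val this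
  -- the good elements
  set good : Finset G := {a ∈ X' | ¬ W ≤ (ξ (a - b₀)).valMinAbs.natAbs} with hgood
  have hsplit : #{a ∈ X' | W ≤ (ξ (a - b₀)).valMinAbs.natAbs} + good.card = #X' :=
    Finset.card_filter_add_card_filter_not (s := X')
      (fun a => W ≤ (ξ (a - b₀)).valMinAbs.natAbs)
  have hcard : good.card ≤ 2 * W - 1 := by
    have hmap : ∀ a ∈ good, (ξ (a - b₀)).valMinAbs ∈ Finset.Ioo (-(W : ℤ)) (W : ℤ) := by
      intro a ha
      have := (Finset.mem_filter.1 ha).2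
      rw [Finset.mem_Ioo]
      omega
    have hinj : Set.InjOn (fun a => (ξ (a - b₀)).valMinAbs) (good : Set G) := by
      intro a ha b hb hab
      have ha' := (Finset.mem_filter.1 (Finset.mem_coe.1 ha)).1
      have hb' := (Finset.mem_filter.1 (Finset.mem_coe.1 hb)).1
      have h1 : ξ (a - b₀) = ξ (b - b₀) := ZMod.injective_valMinAbs hab
      have h2 : ξ (a - b) = 0 := by
        have : a - b = (a - b₀) - (b - b₀) := by abel
        rw [this, map_sub, h1, sub_self]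
      have h3 : a - b ∈ L := by
        have : a - b = (a - b₀) - (b - b₀) := by abel
        rw [this]
        exact L.sub_mem (hcos a ha') (hcos b hb')
      exact sub_eq_zero.1 (hker _ h3 h2)
    have := Finset.card_le_card_of_injOn _ hmap hinj
    rw [Int.card_Ioo] at this
    omega
  have hX : #X' ≤ 4 * W - 2 := by omega
  calc 2 * c * #X' ≤ 2 * c * (4 * W - 2) := Nat.mul_le_mul_left _ hX
    _ < 2 * c * (4 * W) := by
        apply Nat.mul_lt_mul_of_pos_left _ (by omega)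
        omega
    _ = 8 * c * W := by ring
    _ ≤ p := hW1

/-- a round, with at least `p / (2 c)` elements of `X` left, is more than half full -/
theorem FILLZM.round (L : Submodule (ZMod p) G) (hL : Nat.card L = p) {X Z : Finset G}
    (hXZ : Disjoint X Z) (hcos : ∀ a ∈ X, ∀ b ∈ Z, a - b ∈ L) {c l : ℕ} (hc : 1 ≤ c)
    (hl : p < 2 ^ l) (hp : 16 * c ≤ p) (hX : p + 256 * c ^ 2 * l ≤ 2 * c * #X)
    (hZ : 128 * c * l + 1 ≤ #Z) :
    ∃ (m : ℕ) (P Q : Finset G) (σ : G) (Y : Finset G), m ≤ 128 * c * l ∧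
      Exch L X Z m P Q σ Y ∧ Nat.card L < 2 * #Y := by
  obtain ⟨m, P, Q, σ, Y, hm, hE, h⟩ := greedy L X Z (N := 128 * c) (l := l) (by omega)
    (by rw [hL]; exact hl)
  refine ⟨m, P, Q, σ, Y, hm, hE, ?_⟩
  rcases h with h | ⟨h2, hst⟩
  · exact h
  exfalso
  have hcX : #X ≤ #(X \ (P ∪ Q)) + m := by
    have h1 : X \ P ⊆ X \ (P ∪ Q) := by
      intro a ha
      rw [Finset.mem_sdiff] at ha ⊢
      refine ⟨ha.1, fun h => ?_⟩
      rcases Finset.mem_union.1 h with h | h
      · exact ha.2 h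
      · exact Finset.disjoint_left.1 hXZ ha.1 (hE.subZ h)
    have h2 := Finset.card_le_card h1
    have h3 := Finset.card_sdiff_of_subset hE.subX
    have h4 := hE.cardP
    have h5 := Finset.card_le_card hE.subX
    omega
  have hcZ : #Z ≤ #(Z \ (P ∪ Q)) + m := by
    have h1 : Z \ Q ⊆ Z \ (P ∪ Q) := by
      intro a ha
      rw [Finset.mem_sdiff] at ha ⊢
      refine ⟨ha.1, fun h => ?_⟩
      rcases Finset.mem_union.1 h with h | h
      · exact Finset.disjoint_left.1 hXZ (hE.subX h) ha.1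
      · exact ha.2 h
    have h2 := Finset.card_le_card h1
    have h3 := Finset.card_sdiff_of_subset hE.subZ
    have h4 := hE.cardQ
    have h5 := Finset.card_le_card hE.subZ
    omega
  have hZne : (Z \ (P ∪ Q)).Nonempty := by
    rw [← Finset.card_pos]
    omega
  obtain ⟨b₀, hb₀⟩ := hZne
  have hb₀' := (Finset.mem_sdiff.1 hb₀).1
  have hstuck := FILLZM.stuck L hL (X' := X \ (P ∪ Q)) (Y := Y) (b₀ := b₀)
    (fun a ha => hcos a (Finset.mem_sdiff.1 ha).1 b₀ hb₀') hc hp hE.ne hE.mem h2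
    (fun a ha => hst a ha b₀ hb₀ (hcos a (Finset.mem_sdiff.1 ha).1 b₀ hb₀'))
  have h1 : 2 * c * #X ≤ 2 * c * #(X \ (P ∪ Q)) + 2 * c * m := by
    rw [← Nat.mul_add]
    exact Nat.mul_le_mul_left _ hcX
  have h2' : 2 * c * m ≤ 256 * c ^ 2 * l := by
    calc 2 * c * m ≤ 2 * c * (128 * c * l) := Nat.mul_le_mul_left _ hm
      _ = 256 * c ^ 2 * l := by ring
  omega

theorem fillz (L : Submodule (ZMod p) G) (hL : Nat.card L = p) {X Z : Finset G}
    (hXZ : Disjoint X Z) (hcos : ∀ a ∈ X, ∀ b ∈ Z, a - b ∈ L) {c l : ℕ} (hc : 1 ≤ c)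
    (hl : p < 2 ^ l) (hp : 512 * c ^ 2 * l ≤ p) (hX : p ≤ c * #X) (hZ : 256 * c * l + 1 ≤ #Z)
    {g : G} (hg : g - ∑ x ∈ X, x ∈ L) : Hit (X ∪ Z) #X g := by
  have hl1 : 1 ≤ l := by
    rcases Nat.eq_zero_or_pos l with h | h
    · subst h
      have := (Fact.out : p.Prime).one_lt
      simp at hl
      omega
    · exact h
  have hp16 : 16 * c ≤ p := by
    have h1 : c ≤ c ^ 2 * l := by
      calc c = c * 1 := (mul_one c).symm
        _ ≤ c * (c * l) := Nat.mul_le_mul_left _ (Nat.mul_pos hc hl1)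
        _ = c ^ 2 * l := by ring
    have h2 : 512 * c ^ 2 * l = 512 * (c ^ 2 * l) := by ring
    omega
  have h2X : 2 * p ≤ 2 * c * #X := by
    have : 2 * c * #X = 2 * (c * #X) := by ring
    omega
  have hp' : 512 * (c ^ 2 * l) ≤ p := by
    have h2 : 512 * c ^ 2 * l = 512 * (c ^ 2 * l) := by ring
    omega
  have h128 : 256 * c * l = 2 * (128 * c * l) := by ring
  -- first round
  obtain ⟨m₁, P₁, Q₁, σ₁, Y₁, hm₁, hE₁, hY₁⟩ := FILLZM.round L hL hXZ hcos hc hl hp16 (by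
    have : 256 * c ^ 2 * l = 256 * (c ^ 2 * l) := by ring
    omega) (by omega)
  -- the rest
  have hcX : #X ≤ #(X \ (P₁ ∪ Q₁)) + m₁ := by
    have h1 : X \ P₁ ⊆ X \ (P₁ ∪ Q₁) := by
      intro a ha
      rw [Finset.mem_sdiff] at ha ⊢
      refine ⟨ha.1, fun h => ?_⟩
      rcases Finset.mem_union.1 h with h | h
      · exact ha.2 h
      · exact Finset.disjoint_left.1 hXZ ha.1 (hE₁.subZ h)
    have h2 := Finset.card_le_card h1
    have h3 := Finset.card_sdiff_of_subset hE₁.subX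
    have h4 := hE₁.cardP
    have h5 := Finset.card_le_card hE₁.subX
    omega
  have hcZ : #Z ≤ #(Z \ (P₁ ∪ Q₁)) + m₁ := by
    have h1 : Z \ Q₁ ⊆ Z \ (P₁ ∪ Q₁) := by
      intro a ha
      rw [Finset.mem_sdiff] at ha ⊢
      refine ⟨ha.1, fun h => ?_⟩
      rcases Finset.mem_union.1 h with h | h
      · exact Finset.disjoint_left.1 hXZ (hE₁.subX h) ha.1
      · exact ha.2 h
    have h2 := Finset.card_le_card h1
    have h3 := Finset.card_sdiff_of_subset hE₁.subZ
    have h4 := hE₁.cardQ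
    have h5 := Finset.card_le_card hE₁.subZ
    omega
  have hm2 : 2 * c * m₁ ≤ 256 * (c ^ 2 * l) := by
    calc 2 * c * m₁ ≤ 2 * c * (128 * c * l) := Nat.mul_le_mul_left _ hm₁
      _ = 256 * (c ^ 2 * l) := by ring
  obtain ⟨m₂, P₂, Q₂, σ₂, Y₂, hm₂, hE₂, hY₂⟩ := FILLZM.round L hL (X := X \ (P₁ ∪ Q₁))
    (Z := Z \ (P₁ ∪ Q₁)) (hXZ.mono Finset.sdiff_subset Finset.sdiff_subset)
    (fun a ha b hb => hcos a (Finset.mem_sdiff.1 ha).1 b (Finset.mem_sdiff.1 hb).1) hc hl hp16 (by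
      have h1 : 2 * c * #X ≤ 2 * c * #(X \ (P₁ ∪ Q₁)) + 2 * c * m₁ := by
        rw [← Nat.mul_add]
        exact Nat.mul_le_mul_left _ hcX
      have : 256 * c ^ 2 * l = 256 * (c ^ 2 * l) := by ring
      omega) (by omega)
  obtain ⟨P, Q, σ, Y, -, -, hE, hY⟩ := two_rounds hE₁ hE₂ hY₁ hY₂
  -- exchange
  have hsum : ∑ x ∈ X \ P, x + ∑ x ∈ P, x = ∑ x ∈ X, x := Finset.sum_sdiff hE.subX
  have hy : g - ∑ x ∈ X \ P, x - σ ∈ L := by
    have h1 : g - ∑ x ∈ X \ P, x - σ = (g - ∑ x ∈ X, x) + ((∑ x ∈ P, x) - σ) := by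
      rw [← hsum]; abel
    rw [h1]
    exact L.add_mem hg hE.sumP
  obtain ⟨T, hT, hTc, hTs⟩ := hE.hit _ (hY _ hy)
  have hdisj : Disjoint (X \ P) T := by
    rw [Finset.disjoint_left]
    intro a ha haT
    rcases Finset.mem_union.1 (hT haT) with h | h
    · exact (Finset.mem_sdiff.1 ha).2 h
    · exact Finset.disjoint_left.1 hXZ (Finset.mem_sdiff.1 ha).1 (hE.subZ h)
  refine ⟨(X \ P) ∪ T, ?_, ?_, ?_⟩
  · apply Finset.union_subset
    · exact Finset.sdiff_subset.trans Finset.subset_union_left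
    · refine hT.trans (Finset.union_subset ?_ ?_)
      · exact hE.subX.trans Finset.subset_union_left
      · exact hE.subZ.trans Finset.subset_union_right
  · rw [Finset.card_union_of_disjoint hdisj, hTc, Finset.card_sdiff_of_subset hE.subX, hE.cardP]
    have := Finset.card_le_card hE.subX
    have h4 := hE.cardP
    omega
  · rw [Finset.sum_union hdisj, hTs]
    abel

end Pool.Agent.Lib.MPa7239a.R3
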