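import Pool.Agent.Lib.MP_a7239a_co.R3.Defs

/-!
# R3, module GREEDY: exchanges which fill a subspace (greedy construction, two rounds)
-/

set_option autoImplicit false
set_option linter.unusedSectionVars false

open Finset
open scoped Pointwise

namespace Pool.Agent.Lib.MPa7239a.R3

open Pool.Agent.Lib.MPa7239a.GC

section
variable {p : ℕ} [Fact p.Prime] {G : Type*} [AddCommGroup G] [Module (ZMod p) G] [Fintype G]
  [DecidableEq G]

namespace GREEDYM

theorem card_le_nat (H : Submodule (ZMod p) G) {Y : Finset G} (hY : ∀ y ∈ Y, y ∈ H) :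
    #Y ≤ Nat.card H := by
  have h1 : (Y : Set G) ⊆ (H : Set G) := fun y hy => hY y (by exact_mod_cast hy)
  have h2 := Set.ncard_le_ncard h1 (Set.toFinite _)
  rw [Set.ncard_coe_finset] at h2
  exact h2

theorem bern {N : ℕ} (hN : 1 ≤ N) (l : ℕ) : N ^ (N * l) * 2 ^ l ≤ (N + 1) ^ (N * l) := by
  have h1 : 2 * N ^ N ≤ (N + 1) ^ N := by
    have hN0 : (0 : ℝ) < N := by exact_mod_cast hN
    have h2 := one_add_mul_le_pow (a := (1 : ℝ) / N) (by
      have : (0 : ℝ) ≤ 1 / N := by positivity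
      linarith) N
    have h3 : (1 : ℝ) + N * (1 / N) = 2 := by
      field_simp
      norm_num
    rw [h3] at h2
    have h4 : (2 : ℝ) * N ^ N ≤ (N + 1) ^ N := by
      calc (2 : ℝ) * N ^ N ≤ (1 + 1 / N) ^ N * N ^ N := by gcongr
        _ = (N + 1) ^ N := by
          rw [← mul_pow]
          congr 1
          field_simp
    exact_mod_cast h4
  calc N ^ (N * l) * 2 ^ l = (2 * N ^ N) ^ l := by
        rw [mul_pow, ← pow_mul, mul_comm]
    _ ≤ ((N + 1) ^ N) ^ l := Nat.pow_le_pow_left h1 l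
    _ = (N + 1) ^ (N * l) := by rw [← pow_mul]

theorem step {H : Submodule (ZMod p) G} {X Z : Finset G} {m : ℕ} {P Q : Finset G} {σ : G}
    {Y : Finset G} (h : Exch H X Z m P Q σ Y) {a b : G} (ha : a ∈ X \ (P ∪ Q))
    (hb : b ∈ Z \ (P ∪ Q)) (hab : a - b ∈ H) (hne : a ≠ b) :
    Exch H X Z (m + 1) (insert a P) (insert b Q) (σ + b) (Y ∪ (Y + {a - b})) := by
  rw [mem_sdiff, mem_union, not_or] at ha hb
  obtain ⟨haX, haP, haQ⟩ := ha
  obtain ⟨hbZ, hbP, hbQ⟩ := hb
  refine ⟨?_, ?_, ?_, ?_, ?_, ?_, ?_, ?_, ?_⟩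
  · exact insert_subset haX h.subX
  · exact insert_subset hbZ h.subZ
  · rw [disjoint_insert_left, disjoint_insert_right, mem_insert, not_or]
    exact ⟨⟨hne, haQ⟩, hbP, h.disj⟩
  · rw [card_insert_of_notMem haP, h.cardP]
  · rw [card_insert_of_notMem hbQ, h.cardQ]
  · exact h.ne.mono subset_union_left
  · intro y hy
    rw [mem_union] at hy
    rcases hy with hy | hy
    · exact h.mem y hy
    · rw [mem_add] at hy
      obtain ⟨y', hy', z, hz, rfl⟩ := hy
      rw [mem_singleton] at hz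
      rw [hz]
      exact H.add_mem (h.mem y' hy') hab
  · intro y hy
    rw [mem_union] at hy
    rcases hy with hy | hy
    · obtain ⟨T, hT, hc, hs⟩ := h.hit y hy
      have hbT : b ∉ T := fun hh => by
        have := hT hh
        rw [mem_union] at this
        exact this.elim hbP hbQ
      refine ⟨insert b T, ?_, ?_, ?_⟩
      · refine insert_subset ?_ (hT.trans ?_)
        · rw [mem_union]
          exact Or.inr (mem_insert_self _ _)
        · exact union_subset_union (subset_insert _ _) (subset_insert _ _)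
      · rw [card_insert_of_notMem hbT, hc]
      · rw [sum_insert hbT, hs]
        abel
    · rw [mem_add] at hy
      obtain ⟨y', hy', z, hz, rfl⟩ := hy
      rw [mem_singleton] at hz
      subst hz
      obtain ⟨T, hT, hc, hs⟩ := h.hit y' hy'
      have haT : a ∉ T := fun hh => by
        have := hT hh
        rw [mem_union] at this
        exact this.elim haP haQ
      refine ⟨insert a T, ?_, ?_, ?_⟩
      · refine insert_subset ?_ (hT.trans ?_)
        · rw [mem_union]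
          exact Or.inl (mem_insert_self _ _)
        · exact union_subset_union (subset_insert _ _) (subset_insert _ _)
      · rw [card_insert_of_notMem haT, hc]
      · rw [sum_insert haT, hs]
        abel
  · rw [sum_insert haP]
    have h1 : a + ∑ x ∈ P, x - (σ + b) = (∑ x ∈ P, x - σ) + (a - b) := by abel
    rw [h1]
    exact H.add_mem h.sumP hab

/-- after `m` steps -/
theorem steps (H : Submodule (ZMod p) G) (X Z : Finset G) {N : ℕ} (m : ℕ) :
    (∃ (m' : ℕ) (P Q : Finset G) (σ : G) (Y : Finset G), m' ≤ m ∧ Exch H X Z m' P Q σ Y ∧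
      (Nat.card H < 2 * #Y ∨ (2 * #Y ≤ Nat.card H ∧ ∀ a ∈ X \ (P ∪ Q), ∀ b ∈ Z \ (P ∪ Q),
        a - b ∈ H → N * #((Y + {a - b}) \ Y) < #Y))) ∨
    ∃ (P Q : Finset G) (σ : G) (Y : Finset G), Exch H X Z m P Q σ Y ∧
      (N + 1) ^ m ≤ N ^ m * #Y := by
  induction m with
  | zero =>
    right
    refine ⟨∅, ∅, 0, {0}, ⟨?_, ?_, ?_, ?_, ?_, ?_, ?_, ?_, ?_⟩, ?_⟩
    · exact empty_subset _
    · exact empty_subset _
    · exact disjoint_empty_left _
    · exact card_empty
    · exact card_empty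
    · exact singleton_nonempty _
    · intro y hy
      rw [mem_singleton] at hy
      rw [hy]
      exact H.zero_mem
    · intro y hy
      rw [mem_singleton] at hy
      refine ⟨∅, empty_subset _, card_empty, ?_⟩
      rw [hy, sum_empty, add_zero]
    · rw [sum_empty, sub_zero]
      exact H.zero_mem
    · simp
  | succ m ih =>
    rcases ih with ⟨m', P, Q, σ, Y, hm, h⟩ | ⟨P, Q, σ, Y, h, hgr⟩
    · exact Or.inl ⟨m', P, Q, σ, Y, by omega, h⟩
    · by_cases hfull : Nat.card H < 2 * #Y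
      · exact Or.inl ⟨m, P, Q, σ, Y, by omega, h, Or.inl hfull⟩
      · push Not at hfull
        by_cases hst : ∀ a ∈ X \ (P ∪ Q), ∀ b ∈ Z \ (P ∪ Q),
            a - b ∈ H → N * #((Y + {a - b}) \ Y) < #Y
        · exact Or.inl ⟨m, P, Q, σ, Y, by omega, h, Or.inr ⟨hfull, hst⟩⟩
        · push Not at hst
          obtain ⟨a, ha, b, hb, hab, hle⟩ := hst
          have hY : 0 < #Y := card_pos.2 h.ne
          have hne : a ≠ b := by
            rintro rfl
            rw [sub_self] at hle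
            have h1 : Y + {(0 : G)} = Y := by
              rw [add_singleton]
              simp
            rw [h1, Finset.sdiff_self, card_empty] at hle
            omega
          right
          refine ⟨insert a P, insert b Q, σ + b, Y ∪ (Y + {a - b}), step h ha hb hab hne, ?_⟩
          have h2 : #(Y ∪ (Y + {a - b})) = #((Y + {a - b}) \ Y) + #Y := by
            rw [card_sdiff_add_card, union_comm]
          rw [h2]
          calc (N + 1) ^ (m + 1) = (N + 1) ^ m * (N + 1) := pow_succ _ _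
            _ ≤ N ^ m * #Y * (N + 1) := Nat.mul_le_mul_right _ hgr
            _ = N ^ m * (N * #Y + #Y) := by ring
            _ ≤ N ^ m * (N * #Y + N * #((Y + {a - b}) \ Y)) := by gcongr
            _ = N ^ (m + 1) * (#((Y + {a - b}) \ Y) + #Y) := by ring

end GREEDYM

theorem greedy (H : Submodule (ZMod p) G) (X Z : Finset G) {N l : ℕ} (hN : 1 ≤ N)
    (hl : Nat.card H < 2 ^ l) :
    ∃ (m : ℕ) (P Q : Finset G) (σ : G) (Y : Finset G), m ≤ N * l ∧ Exch H X Z m P Q σ Y ∧
      (Nat.card H < 2 * #Y ∨ (2 * #Y ≤ Nat.card H ∧ ∀ a ∈ X \ (P ∪ Q), ∀ b ∈ Z \ (P ∪ Q),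
        a - b ∈ H → N * #((Y + {a - b}) \ Y) < #Y)) := by
  rcases GREEDYM.steps H X Z (N := N) (N * l) with h | ⟨P, Q, σ, Y, h, hgr⟩
  · exact h
  · exfalso
    have h1 := GREEDYM.card_le_nat H h.mem
    have h2 := GREEDYM.bern hN l
    have h3 : 0 < N ^ (N * l) := Nat.pow_pos hN
    have h4 : N ^ (N * l) * #Y < N ^ (N * l) * 2 ^ l := Nat.mul_lt_mul_of_pos_left (by omega) h3
    omega

/-- two rounds which are both more than half of `H` fill `H` (pigeonhole: `g - Y₁` meets `Y₂`) -/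
theorem two_rounds {H : Submodule (ZMod p) G} {X Z : Finset G} {m₁ m₂ : ℕ}
    {P₁ Q₁ P₂ Q₂ Y₁ Y₂ : Finset G} {σ₁ σ₂ : G} (h₁ : Exch H X Z m₁ P₁ Q₁ σ₁ Y₁)
    (h₂ : Exch H (X \ (P₁ ∪ Q₁)) (Z \ (P₁ ∪ Q₁)) m₂ P₂ Q₂ σ₂ Y₂) (hY₁ : Nat.card H < 2 * #Y₁)
    (hY₂ : Nat.card H < 2 * #Y₂) :
    ∃ (P Q : Finset G) (σ : G) (Y : Finset G), P = P₁ ∪ P₂ ∧ Q = Q₁ ∪ Q₂ ∧
      Exch H X Z (m₁ + m₂) P Q σ Y ∧ ∀ g ∈ H, g ∈ Y := by
  have hP2 : Disjoint P₂ (P₁ ∪ Q₁) := by
    rw [disjoint_left]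
    intro x hx hx'
    exact (mem_sdiff.1 (h₂.subX hx)).2 hx'
  have hQ2 : Disjoint Q₂ (P₁ ∪ Q₁) := by
    rw [disjoint_left]
    intro x hx hx'
    exact (mem_sdiff.1 (h₂.subZ hx)).2 hx'
  rw [disjoint_union_right] at hP2 hQ2
  have hPP : Disjoint P₁ P₂ := hP2.1.symm
  have hQQ : Disjoint Q₁ Q₂ := hQ2.2.symm
  refine ⟨P₁ ∪ P₂, Q₁ ∪ Q₂, σ₁ + σ₂, Y₁ + Y₂, rfl, rfl,
    ⟨?_, ?_, ?_, ?_, ?_, ?_, ?_, ?_, ?_⟩, ?_⟩
  · exact union_subset h₁.subX (h₂.subX.trans sdiff_subset)
  · exact union_subset h₁.subZ (h₂.subZ.trans sdiff_subset)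
  · rw [disjoint_union_left, disjoint_union_right, disjoint_union_right]
    exact ⟨⟨h₁.disj, hQ2.1.symm⟩, hP2.2, h₂.disj⟩
  · rw [card_union_of_disjoint hPP, h₁.cardP, h₂.cardP]
  · rw [card_union_of_disjoint hQQ, h₁.cardQ, h₂.cardQ]
  · exact h₁.ne.add h₂.ne
  · intro y hy
    rw [mem_add] at hy
    obtain ⟨y₁, hy₁, y₂, hy₂, rfl⟩ := hy
    exact H.add_mem (h₁.mem _ hy₁) (h₂.mem _ hy₂)
  · intro y hy
    rw [mem_add] at hy
    obtain ⟨y₁, hy₁, y₂, hy₂, rfl⟩ := hy
    obtain ⟨T₁, hT₁, hc₁, hs₁⟩ := h₁.hit _ hy₁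
    obtain ⟨T₂, hT₂, hc₂, hs₂⟩ := h₂.hit _ hy₂
    have hd : Disjoint T₁ T₂ := by
      rw [disjoint_left]
      intro x hx hx'
      have h3 := hT₁ hx
      have h4 := hT₂ hx'
      rw [mem_union] at h3 h4
      rcases h3 with h3 | h3 <;> rcases h4 with h4 | h4
      · exact disjoint_left.1 hP2.1 h4 h3
      · exact disjoint_left.1 hQ2.1 h4 h3
      · exact disjoint_left.1 hP2.2 h4 h3
      · exact disjoint_left.1 hQ2.2 h4 h3
    refine ⟨T₁ ∪ T₂, ?_, ?_, ?_⟩
    · refine union_subset (hT₁.trans ?_) (hT₂.trans ?_)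
      · exact union_subset_union subset_union_left subset_union_left
      · exact union_subset_union subset_union_right subset_union_right
    · rw [card_union_of_disjoint hd, hc₁, hc₂]
    · rw [sum_union hd, hs₁, hs₂]
      abel
  · rw [sum_union hPP]
    have h3 : ∑ x ∈ P₁, x + ∑ x ∈ P₂, x - (σ₁ + σ₂) =
        (∑ x ∈ P₁, x - σ₁) + (∑ x ∈ P₂, x - σ₂) := by abel
    rw [h3]
    exact H.add_mem h₁.sumP h₂.sumP
  · intro g hg
    have hinj : Function.Injective fun y : G => g - y := fun y y' h => by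
      have := congrArg (fun t => g - t) h
      simpa using this
    have h5 : #(Y₁.image fun y => g - y) = #Y₁ := card_image_of_injective _ hinj
    have h6 : ∀ y ∈ (Y₁.image fun y => g - y) ∪ Y₂, y ∈ H := by
      intro y hy
      rw [mem_union, mem_image] at hy
      rcases hy with ⟨y', hy', rfl⟩ | hy
      · exact H.sub_mem hg (h₁.mem _ hy')
      · exact h₂.mem _ hy
    have h7 := GREEDYM.card_le_nat H h6
    have h8 : ¬ Disjoint (Y₁.image fun y => g - y) Y₂ := by
      intro hd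
      rw [card_union_of_disjoint hd, h5] at h7
      omega
    rw [not_disjoint_iff] at h8
    obtain ⟨y, hy, hy'⟩ := h8
    rw [mem_image] at hy
    obtain ⟨y', hy'', rfl⟩ := hy
    rw [mem_add]
    exact ⟨y', hy'', _, hy', by abel⟩

end

end Pool.Agent.Lib.MPa7239a.R3
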