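import Mathlib.Combinatorics.Additive.CauchyDavenport
import Pool.Agent.Lib.MP_a7239a_co.R3.Defs

/-!
# Module KSUM: sums of `k` elements in `ZMod p` (Cauchy-Davenport)
-/

set_option autoImplicit false

open Finset
open scoped Pointwise

namespace Pool.Agent.Lib.MPa7239a.R3

open Pool.Agent.Lib.MPa7239a.GC

section
variable {p : ℕ} [Fact p.Prime] {G : Type*} [AddCommGroup G] [Module (ZMod p) G] [Fintype G]
  [DecidableEq G]

/-- the number of sums of `k` elements -/
theorem ksum_aux {ι : Type*} [DecidableEq ι] {f : ι → ZMod p} (k : ℕ) : ∀ A : Finset ι,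
    k ≤ ∑ v : ZMod p, min k #{a ∈ A | f a = v} →
    min p ((∑ v : ZMod p, min k #{a ∈ A | f a = v}) + 1 - k) ≤
      #((A.powersetCard k).image fun T => ∑ a ∈ T, f a) := by
  have hp : p.Prime := Fact.out
  induction k with
  | zero => intro A _; simp
  | succ k ih =>
    intro A hA
    obtain ⟨B, hB0, hB1, hB2, hB3, hB4⟩ : ∃ B : Finset (ZMod p), B.Nonempty ∧
        (∀ v ∈ B, 1 ≤ #{a ∈ A | f a = v}) ∧
        (∀ v ∈ B, min k (#{a ∈ A | f a = v} - 1) + 1 = min (k + 1) #{a ∈ A | f a = v}) ∧
        (∀ v ∉ B, min k #{a ∈ A | f a = v} = min (k + 1) #{a ∈ A | f a = v}) ∧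
        k + #B ≤ ∑ v : ZMod p, min (k + 1) #{a ∈ A | f a = v} := by
      by_cases hne : (univ.filter fun v : ZMod p => k + 1 ≤ #{a ∈ A | f a = v}).Nonempty
      · refine ⟨univ.filter fun v : ZMod p => k + 1 ≤ #{a ∈ A | f a = v}, hne, ?_, ?_, ?_, ?_⟩
        · intro v hv
          have := (mem_filter.1 hv).2
          omega
        · intro v hv
          have := (mem_filter.1 hv).2
          omega
        · intro v hv
          have : ¬ k + 1 ≤ #{a ∈ A | f a = v} := fun h => hv (mem_filter.2 ⟨mem_univ _, h⟩)
          omega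
        · set B := univ.filter fun v : ZMod p => k + 1 ≤ #{a ∈ A | f a = v} with hB
          have h1 : ∑ v ∈ B, min (k + 1) #{a ∈ A | f a = v} ≤
              ∑ v : ZMod p, min (k + 1) #{a ∈ A | f a = v} :=
            sum_le_sum_of_subset (subset_univ _)
          have h2 : ∑ v ∈ B, min (k + 1) #{a ∈ A | f a = v} = ∑ v ∈ B, (k + 1) := by
            refine sum_congr rfl fun v hv => ?_
            have := (mem_filter.1 hv).2
            omega
          rw [h2, sum_const, smul_eq_mul] at h1
          have h3 : 1 ≤ #B := hne.card_pos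
          nlinarith
      · rw [not_nonempty_iff_eq_empty, filter_eq_empty_iff] at hne
        have hle : ∀ v : ZMod p, #{a ∈ A | f a = v} ≤ k := fun v => by
          have := hne (mem_univ v)
          omega
        obtain ⟨v, -, hv⟩ : ∃ v ∈ (univ : Finset (ZMod p)),
            min (k + 1) #{a ∈ A | f a = v} ≠ 0 := by
          by_contra hcon
          push Not at hcon
          have : ∑ v : ZMod p, min (k + 1) #{a ∈ A | f a = v} = 0 := sum_eq_zero hcon
          omega
        refine ⟨{v}, singleton_nonempty _, ?_, ?_, ?_, ?_⟩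
        · intro w hw
          rw [mem_singleton] at hw
          subst hw
          omega
        · intro w hw
          rw [mem_singleton] at hw
          subst hw
          have := hle w
          omega
        · intro w _
          have := hle w
          omega
        · rw [card_singleton]
          exact hA
    have hex : ∀ v ∈ B, ∃ a, a ∈ A ∧ f a = v := fun v hv => by
      obtain ⟨a, ha⟩ := card_pos.1 (hB1 v hv)
      exact ⟨a, mem_filter.1 ha⟩
    have : Nonempty ι := by
      obtain ⟨v, hv⟩ := hB0
      obtain ⟨a, -⟩ := hex v hv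
      exact ⟨a⟩
    choose! g hgA hgf using hex
    -- the set without the representatives
    have hcard : ∀ v : ZMod p, #{a ∈ A \ B.image g | f a = v} =
        #{a ∈ A | f a = v} - (if v ∈ B then 1 else 0) := by
      intro v
      by_cases hv : v ∈ B
      · have : {a ∈ A \ B.image g | f a = v} = ({a ∈ A | f a = v} : Finset ι).erase (g v) := by
          ext a
          simp only [mem_filter, mem_sdiff, mem_image, mem_erase, not_exists, not_and]
          constructor
          · rintro ⟨⟨h1, h2⟩, h3⟩
            exact ⟨fun h => h2 v hv h.symm, h1, h3⟩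
          · rintro ⟨h1, h2, h3⟩
            refine ⟨⟨h2, fun w hw h => ?_⟩, h3⟩
            have : w = v := by rw [← hgf w hw, h, h3]
            subst this
            exact h1 h.symm
        rw [this, card_erase_of_mem (mem_filter.2 ⟨hgA v hv, hgf v hv⟩), if_pos hv]
      · have : {a ∈ A \ B.image g | f a = v} = ({a ∈ A | f a = v} : Finset ι) := by
          ext a
          simp only [mem_filter, mem_sdiff, mem_image, not_exists, not_and]
          constructor
          · rintro ⟨⟨h1, h2⟩, h3⟩
            exact ⟨h1, h3⟩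
          · rintro ⟨h2, h3⟩
            refine ⟨⟨h2, fun w hw h => ?_⟩, h3⟩
            have : w = v := by rw [← hgf w hw, h, h3]
            exact hv (this ▸ hw)
        rw [this, if_neg hv, Nat.sub_zero]
    have hsum : (∑ v : ZMod p, min k #{a ∈ A \ B.image g | f a = v}) + #B =
        ∑ v : ZMod p, min (k + 1) #{a ∈ A | f a = v} := by
      have h1 : #B = ∑ v : ZMod p, if v ∈ B then 1 else 0 := by
        rw [sum_ite_mem, univ_inter, sum_const, smul_eq_mul, mul_one]
      rw [h1, ← sum_add_distrib]
      refine sum_congr rfl fun v _ => ?_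
      rw [hcard v]
      by_cases hv : v ∈ B
      · rw [if_pos hv]
        exact hB2 v hv
      · rw [if_neg hv, Nat.sub_zero, add_zero]
        exact hB3 v hv
    have hN : k ≤ ∑ v : ZMod p, min k #{a ∈ A \ B.image g | f a = v} := by omega
    have hih := ih (A \ B.image g) hN
    set S' := ((A \ B.image g).powersetCard k).image fun T => ∑ a ∈ T, f a with hS'
    have hpos : 0 < p := hp.pos
    have hS'ne : S'.Nonempty := by
      rw [← card_pos]
      refine lt_of_lt_of_le ?_ hih
      rw [lt_min_iff]
      omega
    have hcd := ZMod.cauchy_davenport hp hS'ne hB0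
    have hsub : S' + B ⊆ (A.powersetCard (k + 1)).image fun T => ∑ a ∈ T, f a := by
      intro x hx
      obtain ⟨s, hs, v, hv, rfl⟩ := mem_add.1 hx
      obtain ⟨T, hT, rfl⟩ := mem_image.1 hs
      obtain ⟨hT1, hT2⟩ := mem_powersetCard.1 hT
      have hnot : g v ∉ T := fun h => (mem_sdiff.1 (hT1 h)).2 (mem_image_of_mem _ hv)
      refine mem_image.2 ⟨insert (g v) T, mem_powersetCard.2 ⟨?_, ?_⟩, ?_⟩
      · intro a ha
        rcases mem_insert.1 ha with rfl | ha
        · exact hgA v hv
        · exact (mem_sdiff.1 (hT1 ha)).1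
      · rw [card_insert_of_notMem hnot, hT2]
      · rw [sum_insert hnot, hgf v hv, add_comm]
    have hfin := card_le_card hsub
    have hBpos : 1 ≤ #B := hB0.card_pos
    refine le_trans ?_ hfin
    refine le_trans ?_ hcd
    rw [le_min_iff]
    refine ⟨min_le_left _ _, ?_⟩
    have := min_le_iff.1 hih
    rcases this with h | h
    · exact (min_le_left _ _).trans (by omega)
    · exact (min_le_right _ _).trans (by omega)

theorem ksum {ι : Type*} [DecidableEq ι] {A : Finset ι} {f : ι → ZMod p} {k : ℕ}
    (h : p + k ≤ (∑ v : ZMod p, min k #{a ∈ A | f a = v}) + 1) (t : ZMod p) :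
    ∃ T ⊆ A, #T = k ∧ ∑ a ∈ T, f a = t := by
  have hp : p.Prime := Fact.out
  have hpos : 0 < p := hp.pos
  have h1 := ksum_aux (f := f) k A (by omega)
  have h2 : p ≤ #((A.powersetCard k).image fun T => ∑ a ∈ T, f a) := by
    refine le_trans ?_ h1
    rw [le_min_iff]
    omega
  have h3 : ((A.powersetCard k).image fun T => ∑ a ∈ T, f a) = univ := by
    rw [← card_eq_iff_eq_univ]
    refine le_antisymm (card_le_univ _) ?_
    rw [ZMod.card]
    exact h2
  have h4 : t ∈ (A.powersetCard k).image fun T => ∑ a ∈ T, f a := h3 ▸ mem_univ t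
  obtain ⟨T, hT, rfl⟩ := mem_image.1 h4
  obtain ⟨hT1, hT2⟩ := mem_powersetCard.1 hT
  exact ⟨T, hT1, hT2, rfl⟩

end

end Pool.Agent.Lib.MPa7239a.R3
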