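import Pool.Agent.Lib.MP_a7239a_co.R3.Defs
import Pool.Agent.Lib.MP_a7239a_co.KP.Final

/-! # PLANE (helper6): a plane contains at most `2 p - 2` elements -/

set_option autoImplicit false

open Finset
open scoped Pointwise

namespace Pool.Agent.Lib.MPa7239a.R3

open Pool.Agent.Lib.MPa7239a.GC

namespace PLANEM

variable {p : ℕ} [Fact p.Prime] {G : Type*} [AddCommGroup G] [Module (ZMod p) G] [Fintype G]
  [DecidableEq G]

omit [DecidableEq G] in
theorem finrank_ker (hG : Nat.card G = p ^ 3) {ξ : G →ₗ[ZMod p] ZMod p} (hξ : ξ ≠ 0) :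
    Module.finrank (ZMod p) (LinearMap.ker ξ) = 2 := by
  have hp : p.Prime := Fact.out
  have h1 : Module.finrank (ZMod p) G = 3 := by
    have h := Module.natCard_eq_pow_finrank (K := ZMod p) (V := G)
    rw [hG, Nat.card_eq_fintype_card, ZMod.card p] at h
    exact (Nat.pow_right_injective hp.two_le h).symm
  have h2 := LinearMap.finrank_range_add_finrank_ker ξ
  have h3 : LinearMap.range ξ = ⊤ := LinearMap.range_eq_top.2 (LinearMap.surjective hξ)
  rw [h3, finrank_top, Module.finrank_self, h1] at h2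
  omega

omit [DecidableEq G] in
theorem row_le_of (hG : Nat.card G = p ^ 3)
    (hK : ∀ B : Finset (ZMod p × ZMod p), (∀ T ⊆ B, #T = p → ∑ x ∈ T, x ≠ 0) → #B ≤ 2 * p - 2)
    {A : Finset G} (hA : ¬ Hit A p 0)
    {ξ : G →ₗ[ZMod p] ZMod p} (hξ : ξ ≠ 0) (v : ZMod p) : #{a ∈ A | ξ a = v} ≤ 2 * p - 2 := by
  classical
  have hp : p.Prime := Fact.out
  rcases Finset.eq_empty_or_nonempty {a ∈ A | ξ a = v} with h0 | ⟨x₀, hx₀⟩
  · rw [h0]; simp
  have hx0 := (Finset.mem_filter.1 hx₀).2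
  have he : Module.finrank (ZMod p) (LinearMap.ker ξ) =
      Module.finrank (ZMod p) (ZMod p × ZMod p) := by
    rw [finrank_ker hG hξ, Module.finrank_prod, Module.finrank_self]
  let e : LinearMap.ker ξ ≃ₗ[ZMod p] (ZMod p × ZMod p) := LinearEquiv.ofFinrankEq _ _ he
  have hmem : ∀ a ∈ ({a ∈ A | ξ a = v} : Finset G), a - x₀ ∈ LinearMap.ker ξ := by
    intro a ha
    rw [LinearMap.mem_ker, map_sub, (Finset.mem_filter.1 ha).2, hx0, sub_self]
  let g : G → ZMod p × ZMod p := fun a =>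
    if h : a - x₀ ∈ LinearMap.ker ξ then e ⟨a - x₀, h⟩ else 0
  have hg : ∀ a (h : a - x₀ ∈ LinearMap.ker ξ), g a = e ⟨a - x₀, h⟩ := by
    intro a h
    simp only [g, dif_pos h]
  have hinj : Set.InjOn g ({a ∈ A | ξ a = v} : Finset G) := by
    intro a ha b hb hab
    rw [hg a (hmem a ha), hg b (hmem b hb)] at hab
    have := congrArg Subtype.val (e.injective hab)
    exact sub_left_injective this
  have hle := hK (({a ∈ A | ξ a = v} : Finset G).image g) (by
    intro T hT hTp hs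
    obtain ⟨S, hS, hST⟩ := Finset.subset_image_iff.1 hT
    have hSc : #S = p := by
      rw [← hTp, ← hST, Finset.card_image_of_injOn (hinj.mono (by exact_mod_cast hS))]
    have hsum : ∑ a ∈ S, g a = 0 := by
      rw [← hs, ← hST, Finset.sum_image (hinj.mono (by exact_mod_cast hS))]
    refine hA ⟨S, fun a ha => (Finset.mem_filter.1 (hS ha)).1, hSc, ?_⟩
    have h1 : ∑ a ∈ S, g a = e (∑ a ∈ S.attach, ⟨a.1 - x₀, hmem a.1 (hS a.2)⟩) := by
      rw [map_sum, ← Finset.sum_attach]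
      exact Finset.sum_congr rfl fun a _ => hg a.1 (hmem a.1 (hS a.2))
    have h2 : (∑ a ∈ S.attach, (⟨a.1 - x₀, hmem a.1 (hS a.2)⟩ : LinearMap.ker ξ)) = 0 := by
      apply e.injective
      rw [← h1, hsum, map_zero]
    have h3 := congrArg Subtype.val h2
    rw [Submodule.coe_zero, AddSubmonoidClass.coe_finsetSum] at h3
    have h4 : ∑ a ∈ S, (a - x₀) = 0 := by
      rw [← Finset.sum_attach]
      exact h3
    rw [Finset.sum_sub_distrib, Finset.sum_const, hSc] at h4
    have h5 : p • x₀ = 0 := by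
      rw [← Nat.cast_smul_eq_nsmul (ZMod p), ZMod.natCast_self, zero_smul]
    rw [h5, sub_zero] at h4
    exact h4)
  rwa [Finset.card_image_of_injOn hinj] at hle

theorem plane_bound {q : ℕ} (hq : q.Prime) (hq11 : 11 ≤ q) (B : Finset (ZMod q × ZMod q))
    (hB : ∀ T ⊆ B, #T = q → ∑ x ∈ T, x ≠ 0) : #B ≤ 2 * q - 2 := by
  have : Fact q.Prime := ⟨hq⟩
  rw [← KP.exactK hq hq11]
  refine le_csSup ⟨Fintype.card (ZMod q × ZMod q), ?_⟩ ⟨B, rfl, hB⟩
  rintro k ⟨A, rfl, -⟩
  exact Finset.card_le_univ A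

end PLANEM

section
variable {p : ℕ} [Fact p.Prime] {G : Type*} [AddCommGroup G] [Module (ZMod p) G] [Fintype G]
  [DecidableEq G]

set_option linter.unusedSectionVars false in
theorem row_le (hp : 11 ≤ p) (hG : Nat.card G = p ^ 3) {A : Finset G} (hA : ¬ Hit A p 0)
    {ξ : G →ₗ[ZMod p] ZMod p} (hξ : ξ ≠ 0) (v : ZMod p) : #{a ∈ A | ξ a = v} ≤ 2 * p - 2 :=
  PLANEM.row_le_of hG (PLANEM.plane_bound Fact.out hp) hA hξ v

end

end Pool.Agent.Lib.MPa7239a.R3
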